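import Pool.Agent.Work.MP_b5407d_pos_helper47.Asm

/-! # `C_1 > w J` (helper47) -/

set_option autoImplicit false

open MeasureTheory Set Filter Topology

namespace Pool.Agent.Work.MP_b5407d_pos_h47

open Pool.LBM Pool.Agent.Work.MP_b5407d_pos_h9.FV

section
variable {v w : ℝ} {a b : ℕ → ℝ} {m p q : ℕ} {T1 T2 : ℝ → ℝ}

/-- the two graph functions in the plane of the polygon -/
structure Kc (a b : ℕ → ℝ) (m p q : ℕ) (T1 T2 : ℝ → ℝ) : Prop where
  lo : Up (pl a) (pl b) (dpl a) 0 p T1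
  up : Dn (pl a) (pl b) (dpl a) q m T2

lemma exists_Kc (h : Std m 0 a b) (S : Spl m a b p q) : ∃ T1 T2, Kc a b m p q T1 T2 := by
  obtain ⟨T1, h1⟩ := graph_up (α := 0) (β := p) (Nat.cast_nonneg p) (plAC a) (plAC b)
    (ρ := fun _ => 1) (p := dpl a) (q := dpl b) (fun _ => one_pos) (fun t => by ring)
    (fun t => by ring) (fun t ht => lo_pos S t ht)
    (fun s hs t ht hst => lo_slope h S s hs t ht hst)
  obtain ⟨T2, h2⟩ := graph_dn (α := q) (β := m) (Nat.cast_le.2 S.qm.le) (plAC a) (plAC b)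
    (ρ := fun _ => 1) (p := dpl a) (q := dpl b) (fun _ => one_pos) (fun t => by ring)
    (fun t => by ring) (fun t ht => up_neg S t ht)
    (fun s hs t ht hst => up_slope h S s hs t ht hst)
  exact ⟨T1, T2, h1, h2⟩

lemma a_pq (S : Spl m a b p q) : pl a q = pl a p := by
  have h := (plAC a).eq p q
  have h2 := mid_int S (fun _ => (1:ℝ))
  simp only [one_mul] at h2
  rw [h2] at h
  linarith

lemma b_pq (S : Spl m a b p q) : pl b p ≤ pl b q := by
  have h1 := (plAC b).eq p q
  have h2 : 0 ≤ ∫ u in (p : ℝ)..q, dpl b u := by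
    rw [intervalIntegral.integral_of_le (Nat.cast_le.2 S.pq), integral_Ioc_eq_integral_Ioo]
    exact setIntegral_nonneg measurableSet_Ioo fun u hu => (mid_b S u ⟨hu.1.le, hu.2⟩).le
  linarith

lemma b_lo (h : Std m 0 a b) (S : Spl m a b p q) {t : ℝ} (h0 : 0 ≤ t) (ht : t ≤ p) :
    0 ≤ pl b t := by
  have h1 := (plAC b).eq 0 t
  have h2 : 0 ≤ ∫ u in (0 : ℝ)..t, dpl b u := by
    rw [intervalIntegral.integral_of_le h0, integral_Ioc_eq_integral_Ioo]
    exact setIntegral_nonneg measurableSet_Ioo fun u hu =>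
      (lo_b h S u ⟨hu.1.le, hu.2.trans_le ht⟩)
  have h3 : pl b 0 = 0 := by have := pl_nat b 0; simpa [h.br] using this
  linarith

variable (K : Kc a b m p q T1 T2)
include K

lemma Kc.ends (h : Std m 0 a b) (S : Spl m a b p q) :
    T1 0 = 0 ∧ T2 0 = m ∧ T1 (pl a p) = p ∧ T2 (pl a p) = q ∧ 0 < pl a p := by
  have hp : (1 : ℝ) ≤ p := by exact_mod_cast S.p1
  have hqm : (q : ℝ) ≤ m := Nat.cast_le.2 S.qm.le
  have h1 : pl a 0 = 0 := by have := pl_nat a 0; simpa [h.a0] using this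
  have h2 : pl a m = 0 := by rw [pl_nat, h.am]
  refine ⟨?_, ?_, K.lo.TX p ⟨by linarith, le_rfl⟩, ?_, ?_⟩
  · have := K.lo.TX 0 ⟨le_rfl, by linarith⟩; rwa [h1] at this
  · have := K.up.TX m ⟨hqm, le_rfl⟩; rwa [h2] at this
  · rw [← a_pq S]; exact K.up.TX q ⟨le_rfl, hqm⟩
  · have := K.lo.sm ⟨le_rfl, by linarith⟩ ⟨by linarith, le_rfl⟩ (by linarith : (0:ℝ) < p)
    rwa [h1] at this

lemma Kc.xx (h : Std m 0 a b) (S : Spl m a b p q) {u : ℝ} (hu : u ∈ Icc 0 (pl a p)) :
    pl a (T1 u) = u ∧ pl a (T2 u) = u := by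
  have h1 : pl a 0 = 0 := by have := pl_nat a 0; simpa [h.a0] using this
  have h2 : pl a m = 0 := by rw [pl_nat, h.am]
  exact ⟨K.lo.XT u (by rw [h1]; exact hu), K.up.XT u (by rw [h2, a_pq S]; exact hu)⟩

lemma Kc.lt (h : Std m 0 a b) (S : Spl m a b p q) {u : ℝ} (hu : u ∈ Icc 0 (pl a p)) :
    pl b (T1 u) ≤ pl b (T2 u) ∧ (u < pl a p → pl b (T1 u) < pl b (T2 u)) := by
  obtain ⟨e1, e2, e3, e4, e5⟩ := K.ends h S
  have h1 : pl a 0 = 0 := by have := pl_nat a 0; simpa [h.a0] using this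
  have h2 : pl a m = 0 := by rw [pl_nat, h.am]
  have hcv := K.lo.cv
  rw [h1] at hcv
  have hcc := K.up.cv
  rw [h2, a_pq S] at hcc
  have hg : ConcaveOn ℝ (Icc 0 (pl a p)) (fun u => pl b (T2 u) - pl b (T1 u)) := hcc.sub hcv
  have h3 := conc3 hg (⟨le_rfl, e5.le⟩ : (0:ℝ) ∈ Icc 0 (pl a p)) ⟨e5.le, le_rfl⟩ hu.1 hu.2
  have h4 : pl b 0 = 0 := by have := pl_nat b 0; simpa [h.br] using this
  have h5 := b_pq S
  have h6 : 0 < b m := by have := h.left; rwa [h.br] at this
  rw [e1, e2, e3, e4, h4, pl_nat b m] at h3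
  have h7 := mul_nonneg (sub_nonneg.2 hu.2) h6.le
  have h8 := mul_nonneg (sub_nonneg.2 hu.1) (sub_nonneg.2 h5)
  constructor
  · by_contra hn
    push Not at hn
    have := mul_pos e5 (sub_pos.2 hn)
    linarith
  · intro hlt
    by_contra hn
    push Not at hn
    have := mul_nonneg e5.le (sub_nonneg.2 hn)
    have := mul_pos (sub_pos.2 hlt) h6
    linarith

lemma Kc.conv (h : Std m 0 a b) (S : Spl m a b p q) {g : ℝ → ℝ} (hg : Continuous g) {u : ℝ}
    (hu : u ∈ Icc 0 (pl a p)) :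
    ∫ t in (T1 u)..(T2 u), g t * dpl a t =
      (∫ s in u..(pl a p), g (T1 s)) - ∫ s in u..(pl a p), g (T2 s) := by
  have hi : ∀ s t, IntervalIntegrable (fun t => g t * dpl a t) volume s t :=
    fun s t => (Rg.cmul hg (plAC a).rg).int s t
  have hp0 : (0:ℝ) ≤ p := Nat.cast_nonneg p
  have hqm : (q : ℝ) ≤ m := Nat.cast_le.2 S.qm.le
  rw [← intervalIntegral.integral_add_adjacent_intervals (hi (T1 u) p) (hi p (T2 u)),
    ← intervalIntegral.integral_add_adjacent_intervals (hi p q) (hi q (T2 u))]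
  have h1 := K.lo.int g hg (T1 u) (K.lo.m u) p ⟨hp0, le_rfl⟩
  have h2 := K.up.int g hg q ⟨le_rfl, hqm⟩ (T2 u) (K.up.m u)
  rw [(K.xx h S hu).1] at h1
  rw [(K.xx h S hu).2, a_pq S] at h2
  rw [h1, h2, mid_int S g, intervalIntegral.integral_symm u (pl a p)]
  ring

lemma Kc.L_le (h : Std m 0 a b) (S : Spl m a b p q) {u : ℝ} (hu : u ∈ Icc 0 (pl a p)) :
    pL v w a b (T2 u) ≤ pL v w a b (T1 u) := by
  have h1 := (LAC (v := v) (w := w) (a := a) (b := b)).eq (T1 u) (T2 u)
  rw [K.conv h S qAC.cont hu] at h1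
  have h2 : ∫ s in u..(pl a p), pq v w a b (T1 s) ≤ ∫ s in u..(pl a p), pq v w a b (T2 s) := by
    refine intervalIntegral.integral_mono_on hu.2 ((qAC.cont.comp K.lo.c).intervalIntegrable _ _)
      ((qAC.cont.comp K.up.c).intervalIntegrable _ _) ?_
    intro s hs
    have hs' : s ∈ Icc 0 (pl a p) := ⟨hu.1.trans hs.1, hs.2⟩
    obtain ⟨x1, x2⟩ := K.xx h S hs'
    have h3 := (K.lt h S hs').1
    unfold pq
    rw [x1, x2]
    exact mul_le_mul_of_nonneg_left ((mE_mono w).monotone h3) (Real.exp_pos _).le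
  linarith

omit K in
/-- `C_1 > w J` -/
theorem C1_gt (hw : 0 < w) (h : Std m 0 a b) :
    w * pJ v w a b m * pd v w a b m < pP v w a b m := by
  obtain ⟨p, q, S⟩ := exists_spl h
  obtain ⟨T1, T2, K⟩ := exists_Kc h S
  obtain ⟨e1, e2, e3, e4, e5⟩ := K.ends h S
  have hp0 : (0:ℝ) ≤ p := Nat.cast_nonneg p
  have hqm : (q : ℝ) ≤ m := Nat.cast_le.2 S.qm.le
  set z1 := w * pJ v w a b m with hz1
  have hXm : pX v w a b m = z1 := by
    rw [X_rel h.a0, pl_nat, h.am, mE_0, hz1, pJ]; ring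
  have hXc : Continuous (pX v w a b) := XAC.cont
  have hei : Continuous (fun t => (pe v w a b t)⁻¹) := peiAC.cont
  -- the identity
  have hAC := (((XAC (v := v) (w := w) (a := a) (b := b)).sub (AC.const z1)).mul
    ((mvAC (-v) a).mul (mvAC (-w) b))).congr
    (g' := fun t => (mE v (pl a t) * mE w (pl b t) +
      (pX v w a b t - z1) * Real.exp (v * pl a t) * mE (-w) (pl b t)) * dpl a t +
      (pX v w a b t - z1) * (mE v (pl a t) * (pe v w a b t)⁻¹) * dpl b t) (fun t => by
        have h1 := mE_flip v (pl a t)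
        have h2 := mE_flip w (pl b t)
        have h3 : Real.exp (-(-v * pl a t)) = Real.exp (v * pl a t) := by congr 1; ring
        have h4 : Real.exp (-(-w * pl b t)) = Real.exp (w * pl b t) := by congr 1; ring
        have h5 : (pe v w a b t)⁻¹ = Real.exp (v * pl a t) * Real.exp (w * pl b t) := by
          rw [pe, ← Real.exp_neg, ← Real.exp_add]; congr 1; ring
        have h6 : Real.exp (-(v * pl a t)) * Real.exp (v * pl a t) = 1 := by
          rw [← Real.exp_add]; simp
        rw [h3, h4, h5, pe_split, ← h1, ← h2]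
        linear_combination (-(pX v w a b t - z1) * mE (-v) (pl a t) * Real.exp (w * pl b t) *
          dpl b t) * h6)
  have h7 := hAC.eq 0 m
  have hmE := mE_c (-w)
  have hmw := mE_c w
  have hmv := mE_c v
  have hmv' := mE_c (-v)
  have hac : Continuous (pl a) := (plAC a).cont
  have hbc : Continuous (pl b) := (plAC b).cont
  set k : ℝ → ℝ := fun t => mE v (pl a t) * mE w (pl b t) +
      (pX v w a b t - z1) * Real.exp (v * pl a t) * mE (-w) (pl b t) with hk
  have hkc : Continuous k := by simp only [hk]; fun_prop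
  have i1 : IntervalIntegrable (fun t => k t * dpl a t) volume 0 m :=
    (Rg.cmul hkc (plAC a).rg).int _ _
  have hcc : Continuous (fun t => (pX v w a b t - z1) * (mE v (pl a t) * (pe v w a b t)⁻¹)) := by
    fun_prop
  have i2 : IntervalIntegrable (fun t => (pX v w a b t - z1) *
      (mE v (pl a t) * (pe v w a b t)⁻¹) * dpl b t) volume 0 m :=
    (Rg.cmul hcc (plAC b).rg).int _ _
  rw [intervalIntegral.integral_add i1 i2] at h7
  have h8 : pl a m = 0 := by rw [pl_nat, h.am]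
  have h9 : pl a 0 = 0 := by have := pl_nat a 0; simpa [h.a0] using this
  rw [h8, h9, mE_0] at h7
  simp only [zero_mul, mul_zero, sub_zero] at h7
  have h10 : pP v w a b m - z1 * pd v w a b m = ∫ t in (0 : ℝ)..m, (pX v w a b t - z1) *
      (mE v (pl a t) * (pe v w a b t)⁻¹) * dpl b t := by
    have j1 : IntervalIntegrable (fun t => pX v w a b t * mE v (pl a t) / pe v w a b t *
        dpl b t) volume 0 m := by
      have : Continuous (fun t => pX v w a b t * mE v (pl a t) / pe v w a b t) :=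
        (hXc.mul (hmv.comp hac)).div peAC.cont fun t => (pe_pos t).ne'
      exact (Rg.cmul this (plAC b).rg).int _ _
    have j2 : IntervalIntegrable (fun t => mE v (pl a t) / pe v w a b t *
        dpl b t) volume 0 m := by
      have : Continuous (fun t => mE v (pl a t) / pe v w a b t) :=
        (hmv.comp hac).div peAC.cont fun t => (pe_pos t).ne'
      exact (Rg.cmul this (plAC b).rg).int _ _
    unfold pP pd
    rw [← intervalIntegral.integral_const_mul, ← intervalIntegral.integral_sub j1 (j2.const_mul _)]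
    refine intervalIntegral.integral_congr fun t _ => ?_
    simp only [div_eq_mul_inv]; ring
  have h11 := K.conv h S hkc (u := 0) ⟨le_rfl, e5.le⟩
  rw [e1, e2] at h11
  have hpos : 0 < ∫ s in (0:ℝ)..(pl a p), (k (T2 s) - k (T1 s)) := by
    refine intervalIntegral.intervalIntegral_pos_of_pos_on
      (((hkc.comp K.up.c).sub (hkc.comp K.lo.c)).intervalIntegrable _ _) ?_ e5
    intro s hs
    have hs' : s ∈ Icc 0 (pl a p) := ⟨hs.1.le, hs.2.le⟩
    obtain ⟨x1, x2⟩ := K.xx h S hs'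
    have y12 := (K.lt h S hs').2 hs.2
    have hL := K.L_le (v := v) (w := w) h S hs'
    have y1 : 0 ≤ pl b (T1 s) := b_lo h S (K.lo.m s).1 (K.lo.m s).2
    have hX2 : z1 ≤ pX v w a b (T2 s) := by
      rw [← hXm]
      have hanti : ∀ t ∈ Ico (q:ℝ) m, 0 < -(pe v w a b t * dpl a t) := fun t ht => by
        have := mul_neg_of_pos_of_neg (pe_pos (v := v) (w := w) (a := a) (b := b) t)
          (up_neg S t ht)
        linarith
      have hsm := ac_strictMono (XAC (v := v) (w := w) (a := a) (b := b)).neg hanti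
      have := hsm.monotoneOn (K.up.m s) ⟨hqm, le_rfl⟩ (K.up.m s).2
      linarith
    have hX12 : pX v w a b (T1 s) ≤ pX v w a b (T2 s) := by
      rw [X_rel h.a0, X_rel h.a0, x1, x2]
      have := mul_le_mul_of_nonneg_left hL hw.le
      linarith
    have hM : mE (-w) (pl b (T1 s)) < mE (-w) (pl b (T2 s)) := mE_mono (-w) y12
    have hM1 : 0 ≤ mE (-w) (pl b (T1 s)) := by
      rw [← mE_0 (-w)]; exact (mE_mono (-w)).monotone y1
    have hw12 : mE w (pl b (T1 s)) < mE w (pl b (T2 s)) := mE_mono w y12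
    have hv0 : 0 < mE v s := by rw [← mE_0 v]; exact mE_mono v hs.1
    simp only [hk]
    rw [x1, x2]
    have g1 := mul_pos hv0 (sub_pos.2 hw12)
    have g2 := mul_nonneg (mul_nonneg (sub_nonneg.2 hX2) (Real.exp_pos (v * s)).le)
      (sub_nonneg.2 hM.le)
    have g3 := mul_nonneg (mul_nonneg (sub_nonneg.2 hX12) (Real.exp_pos (v * s)).le) hM1
    linarith
  have c1 : Continuous (fun s => k (T1 s)) := hkc.comp K.lo.c
  have c2 : Continuous (fun s => k (T2 s)) := hkc.comp K.up.c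
  rw [intervalIntegral.integral_sub (c2.intervalIntegrable _ _) (c1.intervalIntegrable _ _)] at hpos
  linarith

end

end Pool.Agent.Work.MP_b5407d_pos_h47
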