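import Pool.Agent.Work.MP_b5407d_pos_helper47.W
import Pool.Agent.Work.MP_b5407d_pos_helper47.C1

/-! # MP_b5407d_gt (POS, `r = 0`): the cases W1 and W3 (helper47)

`U_B = mE v (a 1)`, `U_L = mE w (b m)`, `J = pJ`, `C_1 = pP / pd`, `C_2 = pN / pd`. -/

set_option autoImplicit false

open MeasureTheory Set Filter Topology

namespace Pool.Agent.Work.MP_b5407d_pos_h47

open Pool.LBM Pool.Agent.Work.MP_b5407d_pos_h9.FV

variable {v w : ℝ} {a b : ℕ → ℝ} {m : ℕ}

/-- **W1** (product form) -/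
theorem W1 (hw : w ≠ 0) (h : Std m 0 a b)
    (h1 : pP v w a b m ≤ mE v (a 1) * pd v w a b m)
    (h2 : mE v (a 1) * pN v w a b m 0 ≤ pJ v w a b m * pd v w a b m) :
    pd v w a b m * pM v w a b m 0 ≤ pP v w a b m * pN v w a b m 0 := by
  have hJ : 0 < pJ v w a b m := MP_b5407d_pos_h13.pJ_pos (MP_b5407d_pos_h13.CP_of_Std h)
  have hD : 0 < pd v w a b m := MP_b5407d_pos_h13.pd_pos (MP_b5407d_pos_h13.CP_of_Std h)
  have hX0 := X0_pos v h
  refine W1' hw h ?_ h1 h2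
  rcases le_or_gt w 0 with hw' | hw'
  · have := mul_nonpos_of_nonpos_of_nonneg hw' hJ.le
    linarith
  · have h3 := C1_gt (v := v) hw' h
    have h4 : w * pJ v w a b m * pd v w a b m < mE v (a 1) * pd v w a b m := h3.trans_le h1
    exact lt_of_mul_lt_mul_right h4 hD.le

/-- **W1** (quotient form) -/
theorem W1q (hw : w ≠ 0) (h : Std m 0 a b)
    (h1 : pP v w a b m / pd v w a b m ≤ mE v (a 1))
    (h2 : mE v (a 1) * (pN v w a b m 0 / pd v w a b m) ≤ pJ v w a b m) :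
    pd v w a b m * pM v w a b m 0 ≤ pP v w a b m * pN v w a b m 0 := by
  have hD : 0 < pd v w a b m := MP_b5407d_pos_h13.pd_pos (MP_b5407d_pos_h13.CP_of_Std h)
  refine W1 hw h ?_ ?_
  · rwa [div_le_iff₀ hD] at h1
  · rwa [mul_div_assoc', div_le_iff₀ hD] at h2

/-- **W3** (quotient form) -/
theorem W3q (hw : w ≠ 0) (h : Std m 0 a b)
    (hρ : pJ v w a b m ≤ mE v (a 1) * mE w (b m))
    (h1 : mE v (a 1) ≤ pP v w a b m / pd v w a b m)
    (h2 : pJ v w a b m ≤ mE v (a 1) * (pN v w a b m 0 / pd v w a b m)) :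
    pd v w a b m * pM v w a b m 0 ≤ pP v w a b m * pN v w a b m 0 := by
  have hD : 0 < pd v w a b m := MP_b5407d_pos_h13.pd_pos (MP_b5407d_pos_h13.CP_of_Std h)
  refine W3 hw h hρ ?_ ?_
  · rwa [le_div_iff₀ hD] at h1
  · rwa [mul_div_assoc', le_div_iff₀ hD] at h2

end Pool.Agent.Work.MP_b5407d_pos_h47
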