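import Pool.Agent.Work.MP_b5407d_lbm.Interface

/-! # The two parts of the boundary of a polygon in standard position, `r = 0` (helper47) -/

set_option autoImplicit false

open MeasureTheory Set Filter Topology

namespace Pool.Agent.Work.MP_b5407d_pos_h47

open Pool.LBM (Std)

/-- the split of the boundary -/
structure Spl (m : ℕ) (a b : ℕ → ℝ) (p q : ℕ) : Prop where
  p1 : 1 ≤ p
  pq : p ≤ q
  qm : q < m
  lo : ∀ k, k < p → 0 < a (k + 1) - a k
  ve : ∀ k, p ≤ k → k < q → a (k + 1) - a k = 0
  vb : ∀ k, p ≤ k → k < q → 0 < b (k + 1) - b k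
  up : ∀ k, q ≤ k → k < m → a (k + 1) - a k < 0

variable {m : ℕ} {a b : ℕ → ℝ}

lemma a_pos (h : Std m 0 a b) {k : ℕ} (h0 : 0 < k) (hk : k < m) : 0 < a k := by
  have h1 := h.conv 0 k m h0 hk le_rfl
  have h2 := h.a0
  have h3 := h.am
  have h4 := h.left
  rw [h2, h3] at h1
  have h5 : 0 < a k * (b m - b 0) := by linarith
  by_contra hn
  push Not at hn
  have := mul_nonpos_of_nonpos_of_nonneg hn (sub_nonneg.2 h4.le)
  linarith

lemma turn (h : Std m 0 a b) {k : ℕ} (h1 : 1 ≤ k) (hk : k + 1 < m) (hd : a (k + 1) - a k ≤ 0) :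
    a (k + 2) - a (k + 1) < 0 := by
  have hpos : 0 < a (k + 1) := a_pos h (by omega) hk
  rcases eq_or_lt_of_le (show k + 2 ≤ m from hk) with h2 | h2
  · rw [h2, h.am]; linarith
  · by_contra hn
    push Not at hn
    -- A = V_k - V_{k+1}, B = V_{k+2} - V_{k+1}, C = V_m - V_{k+1}
    have c1 := h.conv k (k + 1) (k + 2) (by omega) (by omega) h2.le
    have c2 := h.conv (k + 1) (k + 2) m (by omega) h2 le_rfl
    have c3 := h.conv k (k + 1) m (by omega) (by omega) le_rfl
    rw [h.am] at c2 c3
    set Ax := a k - a (k + 1) with hAx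
    set Ay := b k - b (k + 1) with hAy
    set Bx := a (k + 2) - a (k + 1) with hBx
    set By := b (k + 2) - b (k + 1) with hBy
    set Cx := 0 - a (k + 1) with hCx
    set Cy := b m - b (k + 1) with hCy
    have d1 : 0 < Bx * Ay - By * Ax := by
      rw [hAx, hAy, hBx, hBy]; linarith
    have d2 : 0 < Bx * Cy - By * Cx := by
      rw [hCx, hCy, hBx, hBy]; linarith
    have d3 : 0 < Cx * Ay - Cy * Ax := by
      rw [hCx, hCy, hAx, hAy]; linarith
    have id : Cx * (Bx * Ay - By * Ax) = Ax * (Bx * Cy - By * Cx) + Bx * (Cx * Ay - Cy * Ax) := by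
      ring
    have e1 : 0 ≤ Ax * (Bx * Cy - By * Cx) := mul_nonneg (by linarith) d2.le
    have e2 : 0 ≤ Bx * (Cx * Ay - Cy * Ax) := mul_nonneg hn d3.le
    have e3 : Cx * (Bx * Ay - By * Ax) < 0 := mul_neg_of_neg_of_pos (by linarith) d1
    linarith

theorem exists_spl (h : Std m 0 a b) : ∃ p q, Spl m a b p q := by
  classical
  have hm : 1 < m := by
    by_contra hn
    have h1 : m = 1 := by have := h.lt; omega
    have h2 := h.bot
    have h3 := h.am
    rw [h.a0] at h2
    rw [h1] at h3
    simp only [zero_add] at h2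
    linarith
  have hex : ∃ k, 1 ≤ k ∧ k < m ∧ a (k + 1) - a k ≤ 0 := by
    refine ⟨m - 1, by omega, by omega, ?_⟩
    have e : m - 1 + 1 = m := by omega
    rw [e, h.am]
    have := a_pos h (k := m - 1) (by omega) (by omega)
    linarith
  obtain ⟨hp1, hpm, hpd⟩ := Nat.find_spec hex
  set p := Nat.find hex with hp
  have hmin : ∀ k, k < p → 0 < a (k + 1) - a k := by
    intro k hk
    rcases Nat.eq_zero_or_pos k with h0 | h0
    · subst h0
      have := h.bot
      linarith
    · by_contra hn
      push Not at hn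
      exact Nat.find_min hex hk ⟨h0, by omega, hn⟩
  rcases lt_or_eq_of_le hpd with hlt | heq
  · refine ⟨p, p, hp1, le_rfl, hpm, hmin, fun k h1 h2 => by omega, fun k h1 h2 => by omega, ?_⟩
    intro k hk
    induction k, hk using Nat.le_induction with
    | base => intro _; exact hlt
    | succ k hk ih =>
      intro hkm
      exact turn h (by omega) hkm (ih (by omega)).le
  · have hp2 : p + 1 < m := by
      by_contra hn
      have e : p + 1 = m := by omega
      rw [e, h.am] at heq
      have := a_pos h (k := p) (by omega) hpm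
      linarith
    refine ⟨p, p + 1, hp1, by omega, hp2, hmin, fun k h1 h2 => ?_, fun k h1 h2 => ?_, ?_⟩
    · have : k = p := by omega
      rw [this]; exact heq
    · have e : k = p := by omega
      rw [e]
      have c1 := h.conv 0 p (p + 1) (by omega) (by omega) (by omega)
      have h0 := a_pos h (k := p) (by omega) hpm
      have h3 := h.a0
      have h4 := h.br
      rw [h3, h4] at c1
      have h5 : a (p + 1) = a p := by linarith
      rw [h5] at c1
      have h6 : 0 < a p * (b (p + 1) - b p) := by linarith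
      by_contra hn
      push Not at hn
      have := mul_nonpos_of_nonneg_of_nonpos h0.le hn
      linarith
    · intro k hk
      induction k, hk using Nat.le_induction with
      | base =>
        intro _
        exact turn h hp1 hp2 heq.le
      | succ k hk ih =>
        intro hkm
        exact turn h (by omega) hkm (ih (by omega)).le

lemma cons (h : Std m 0 a b) {k : ℕ} (hk : k + 1 < m) :
    (b (k + 1) - b k) * (a (k + 2) - a (k + 1)) ≤ (a (k + 1) - a k) * (b (k + 2) - b (k + 1)) := by
  have := h.conv k (k + 1) (k + 2) (by omega) (by omega) hk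
  linarith

lemma slope_lo (h : Std m 0 a b) {p q : ℕ} (S : Spl m a b p q) {i j : ℕ} (hij : i ≤ j)
    (hj : j < p) :
    (b (i + 1) - b i) * (a (j + 1) - a j) ≤ (a (i + 1) - a i) * (b (j + 1) - b j) := by
  induction j, hij using Nat.le_induction with
  | base => linarith
  | succ j hj' ih =>
    have h1 := ih (by omega)
    have h2 := cons h (k := j) (by have := S.pq; have := S.qm; omega)
    have d1 := S.lo i (by omega)
    have d2 := S.lo j (by omega)
    have d3 := S.lo (j + 1) hj
    have e1 := mul_le_mul_of_nonneg_right h1 d3.le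
    have e2 := mul_le_mul_of_nonneg_left h2 d1.le
    have e3 : (a (j + 1) - a j) * ((b (i + 1) - b i) * (a (j + 1 + 1) - a (j + 1))) ≤
        (a (j + 1) - a j) * ((a (i + 1) - a i) * (b (j + 1 + 1) - b (j + 1))) := by
      have : a (j + 1 + 1) = a (j + 2) := rfl
      have : b (j + 1 + 1) = b (j + 2) := rfl
      linarith
    exact le_of_mul_le_mul_left e3 d2

lemma slope_up (h : Std m 0 a b) {p q : ℕ} (S : Spl m a b p q) {i j : ℕ} (hi : q ≤ i)
    (hij : i ≤ j) (hj : j < m) :
    (b (i + 1) - b i) * (a (j + 1) - a j) ≤ (a (i + 1) - a i) * (b (j + 1) - b j) := by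
  induction j, hij using Nat.le_induction with
  | base => linarith
  | succ j hj' ih =>
    have h1 := ih (by omega)
    have h2 := cons h (k := j) (by omega)
    have d1 := S.up i hi (by omega)
    have d2 := S.up j (by omega) (by omega)
    have d3 := S.up (j + 1) (by omega) hj
    have e1 := mul_le_mul_of_nonpos_right h1 d3.le
    have e2 := mul_le_mul_of_nonpos_left h2 d1.le
    have e3 : (a (j + 1) - a j) * ((a (i + 1) - a i) * (b (j + 1 + 1) - b (j + 1))) ≤
        (a (j + 1) - a j) * ((b (i + 1) - b i) * (a (j + 1 + 1) - a (j + 1))) := by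
      have : a (j + 1 + 1) = a (j + 2) := rfl
      have : b (j + 1 + 1) = b (j + 2) := rfl
      linarith
    by_contra hn
    push Not at hn
    have := mul_lt_mul_of_neg_left hn d2
    linarith

lemma db_nonneg (h : Std m 0 a b) {p q : ℕ} (S : Spl m a b p q) {k : ℕ} (hk : k < p) :
    0 ≤ b (k + 1) - b k := by
  have h1 := slope_lo h S (Nat.zero_le k) hk
  have h2 := h.br
  have h3 := h.br1
  rw [h3, h2] at h1
  have h4 := S.lo 0 (by have := S.p1; omega)
  simp only [sub_zero, zero_mul] at h1
  by_contra hn
  push Not at hn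
  have := mul_neg_of_pos_of_neg h4 hn
  linarith

end Pool.Agent.Work.MP_b5407d_pos_h47
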