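import Pool.Agent.Work.MP_b5407d_pos_helper47.Ident
import Pool.Agent.Work.MP_b5407d_pos_helper47.Poly

/-! # The hat chain of a polygon in standard position (helper47) -/

set_option autoImplicit false

open MeasureTheory Set Filter Topology

namespace Pool.Agent.Work.MP_b5407d_pos_h47

open Pool.LBM Pool.Agent.Work.MP_b5407d_pos_h9.FV

lemma mE_flip (v s : ℝ) : Real.exp (-(v * s)) * mE (-v) s = mE v s := by
  unfold mE
  have h1 := intervalIntegral.integral_comp_sub_left (fun u => Real.exp (-(v * u))) (a := 0)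
    (b := s) s
  rw [sub_self, sub_zero] at h1
  rw [← h1, ← intervalIntegral.integral_const_mul]
  refine intervalIntegral.integral_congr fun u _ => ?_
  rw [← Real.exp_add]; congr 1; ring

/-! ### the box path -/
section box
variable {v w z2 J X0 a1 : ℝ}

lemma box_cov (hz : z2 * mE v a1 = J) (hk : 0 < 1 - w * z2) (ha : 0 ≤ a1) {g : ℝ → ℝ}
    (hg : ContinuousOn g (Icc (w * J) (mE v a1))) :
    ∫ u in (w * J)..(mE v a1), g u =
      ∫ s in (0 : ℝ)..a1, g (w * J + (1 - w * z2) * mE v s) *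
        ((1 - w * z2) * Real.exp (-(v * s))) := by
  have hd : ∀ s ∈ uIcc 0 a1, HasDerivAt (fun s => w * J + (1 - w * z2) * mE v s)
      ((1 - w * z2) * Real.exp (-(v * s))) s := by
    intro s _
    exact ((mE_d v s).const_mul (1 - w * z2)).const_add (w * J)
  have hc : ContinuousOn (fun s : ℝ => (1 - w * z2) * Real.exp (-(v * s))) (uIcc 0 a1) := by
    fun_prop
  have himg : (fun s => w * J + (1 - w * z2) * mE v s) '' (uIcc 0 a1) ⊆
      Icc (w * J) (mE v a1) := by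
    rintro _ ⟨s, hs, rfl⟩
    rw [uIcc_of_le ha] at hs
    have h1 : 0 ≤ mE v s := by rw [← mE_0 v]; exact (mE_mono v).monotone hs.1
    have h2 : mE v s ≤ mE v a1 := (mE_mono v).monotone hs.2
    have h3 := mul_nonneg hk.le h1
    have h4 := mul_le_mul_of_nonneg_left h2 hk.le
    simp only [mem_Icc]
    constructor
    · linarith
    · have : w * J = w * (z2 * mE v a1) := by rw [hz]
      linarith
  have h := intervalIntegral.integral_comp_mul_deriv' hd hc (hg.mono himg)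
  simp only [mE_0, mul_zero, add_zero, Function.comp] at h
  have e : w * J + (1 - w * z2) * mE v a1 = mE v a1 := by rw [← hz]; ring
  rw [e] at h
  exact h.symm

lemma box_e (s : ℝ) : ef (1 + v * w * J) v w (w * J + (1 - w * z2) * mE v s) z2 =
    (1 - w * z2) * Real.exp (-(v * s)) := by
  unfold ef
  have := mE_r v s
  linear_combination -(1 - w * z2) * this

lemma box_pos (hz : z2 * mE v a1 = J) (hk : 0 < 1 - w * z2) (hX : w * J < mE v a1) {u : ℝ}
    (hu : u ∈ Icc (w * J) (mE v a1)) : 0 < ef (1 + v * w * J) v w u z2 := by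
  have h1 : ef (1 + v * w * J) v w (w * J) z2 = 1 - w * z2 := by unfold ef; ring
  have h2 : ef (1 + v * w * J) v w (mE v a1) z2 = (1 - w * z2) * Real.exp (-(v * a1)) := by
    rw [← box_e (J := J)]; congr 1; rw [← hz]; ring
  have h3 : ef (1 + v * w * J) v w u z2 * (mE v a1 - w * J) =
      ef (1 + v * w * J) v w (w * J) z2 * (mE v a1 - u) +
      ef (1 + v * w * J) v w (mE v a1) z2 * (u - w * J) := by unfold ef; ring
  have h4 : 0 < (1 - w * z2) * Real.exp (-(v * a1)) := mul_pos hk (Real.exp_pos _)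
  rw [h1, h2] at h3
  by_contra hn
  push Not at hn
  have h5 := mul_nonpos_of_nonpos_of_nonneg hn (sub_pos.2 hX).le
  have h6 := mul_nonneg hk.le (sub_nonneg.2 hu.2)
  have h7 := mul_nonneg h4.le (sub_nonneg.2 hu.1)
  have h8 : (1 - w * z2) * (mE v a1 - u) = 0 := by linarith
  have h9 : (1 - w * z2) * Real.exp (-(v * a1)) * (u - w * J) = 0 := by linarith
  have h10 : mE v a1 - u = 0 := by
    rcases mul_eq_zero.1 h8 with h | h
    · linarith
    · exact h
  have h11 : u - w * J = 0 := by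
    rcases mul_eq_zero.1 h9 with h | h
    · linarith
    · exact h
  linarith

lemma box_cont (hz : z2 * mE v a1 = J) (hk : 0 < 1 - w * z2) (hX : w * J < mE v a1) :
    ContinuousOn (fun u => (ef (1 + v * w * J) v w u z2)⁻¹) (Icc (w * J) (mE v a1)) := by
  refine ContinuousOn.inv₀ ?_ fun u hu => (box_pos hz hk hX hu).ne'
  unfold ef; fun_prop

lemma box0 (hz : z2 * mE v a1 = J) (hk : 0 < 1 - w * z2) (hX : w * J < mE v a1) (ha : 0 ≤ a1) :
    ∫ u in (w * J)..(mE v a1), (ef (1 + v * w * J) v w u z2)⁻¹ = a1 := by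
  rw [box_cov hz hk ha (box_cont hz hk hX)]
  have : ∀ s : ℝ, (ef (1 + v * w * J) v w (w * J + (1 - w * z2) * mE v s) z2)⁻¹ *
      ((1 - w * z2) * Real.exp (-(v * s))) = 1 := by
    intro s
    rw [box_e]
    exact inv_mul_cancel₀ (mul_pos hk (Real.exp_pos _)).ne'
  simp only [this, intervalIntegral.integral_const, smul_eq_mul, mul_one, sub_zero]

lemma box2 (hz : z2 * mE v a1 = J) (hk : 0 < 1 - w * z2) (hX : w * J < mE v a1) (ha : 0 ≤ a1) :
    ∫ u in (w * J)..(mE v a1), (u - mE v a1) * (ef (1 + v * w * J) v w u z2)⁻¹ =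
      -((1 - w * z2) * ∫ s in (0 : ℝ)..a1, (mE v a1 - mE v s)) := by
  rw [box_cov (g := fun u => (u - mE v a1) * (ef (1 + v * w * J) v w u z2)⁻¹) hz hk ha
    ((by fun_prop : ContinuousOn (fun u : ℝ => u - mE v a1) _).mul
    (box_cont hz hk hX)), ← intervalIntegral.integral_const_mul, ← intervalIntegral.integral_neg]
  refine intervalIntegral.integral_congr fun s _ => ?_
  have h1 : (ef (1 + v * w * J) v w (w * J + (1 - w * z2) * mE v s) z2)⁻¹ *
      ((1 - w * z2) * Real.exp (-(v * s))) = 1 := by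
    rw [box_e]
    exact inv_mul_cancel₀ (mul_pos hk (Real.exp_pos _)).ne'
  rw [mul_assoc, h1, ← hz]; ring

lemma box1 (hz : z2 * mE v a1 = J) (hk : 0 < 1 - w * z2) (hX : w * J < mE v a1) (ha : 0 ≤ a1) :
    ∫ u in (w * J)..(mE v a1), (u - mE v a1) * (ef (1 + v * w * J) v w u z2)⁻¹ ^ 2 =
      -∫ s in (0 : ℝ)..a1, mE v s := by
  have h1 : ∀ s : ℝ, (w * J + (1 - w * z2) * mE v s - mE v a1) *
      (ef (1 + v * w * J) v w (w * J + (1 - w * z2) * mE v s) z2)⁻¹ ^ 2 *
      ((1 - w * z2) * Real.exp (-(v * s))) = -((mE v a1 - mE v s) * Real.exp (v * s)) := by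
    intro s
    rw [box_e]
    have h2 : Real.exp (-(v * s)) * Real.exp (v * s) = 1 := by
      rw [← Real.exp_add]; simp
    have h3 : ((1 - w * z2) * Real.exp (-(v * s)))⁻¹ = (1 - w * z2)⁻¹ * Real.exp (v * s) := by
      rw [mul_inv, ← Real.exp_neg]; simp
    have h4 : (1 - w * z2) * (1 - w * z2)⁻¹ = 1 := mul_inv_cancel₀ hk.ne'
    rw [h3]
    have h5 : w * J + (1 - w * z2) * mE v s - mE v a1 = -((1 - w * z2) * (mE v a1 - mE v s)) := by
      rw [← hz]; ring
    rw [h5]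
    calc _ = -((mE v a1 - mE v s) * Real.exp (v * s)) *
          ((1 - w * z2) * (1 - w * z2)⁻¹) ^ 2 * (Real.exp (-(v * s)) * Real.exp (v * s)) := by ring
      _ = _ := by rw [h4, h2]; ring
  rw [box_cov (g := fun u => (u - mE v a1) * (ef (1 + v * w * J) v w u z2)⁻¹ ^ 2) hz hk ha
    ((by fun_prop : ContinuousOn (fun u : ℝ => u - mE v a1) _).mul
    ((box_cont hz hk hX).pow 2))]
  simp only [h1]
  rw [intervalIntegral.integral_neg]
  congr 1
  have hd : ∀ s ∈ uIcc 0 a1, HasDerivAt (fun s => (mE v a1 - mE v s) * mE (-v) s)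
      ((mE v a1 - mE v s) * Real.exp (v * s) - mE v s) s := by
    intro s _
    have h2 := ((mE_d v s).const_sub (mE v a1)).mul (mE_d (-v) s)
    refine h2.congr_deriv ?_
    have h3 := mE_flip v s
    have h4 : Real.exp (-(-v * s)) = Real.exp (v * s) := by congr 1; ring
    rw [h4]
    linear_combination -h3
  have hcm := mE_c v
  have i1 : Continuous (fun s => (mE v a1 - mE v s) * Real.exp (v * s)) := by fun_prop
  have h5 := intervalIntegral.integral_eq_sub_of_hasDerivAt hd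
    ((i1.sub hcm).intervalIntegrable _ _)
  rw [intervalIntegral.integral_sub (i1.intervalIntegrable _ _) (hcm.intervalIntegrable _ _)] at h5
  simp only [mE_0, sub_self, zero_mul, mul_zero, sub_zero] at h5
  linarith

end box


/-! ### the chain -/
section chain
variable {v w : ℝ} {a b : ℕ → ℝ} {m p q : ℕ}

lemma dpl_nat_lt (a : ℕ → ℝ) {t : ℝ} (ht : 0 ≤ t) {n : ℕ} (h : t < n) :
    ⌊t⌋₊ < n ∧ dpl a t = a (⌊t⌋₊ + 1) - a ⌊t⌋₊ := by
  refine ⟨?_, rfl⟩
  rw [Nat.floor_lt ht]; exact h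

lemma cast_le_floor {t : ℝ} {n : ℕ} (h : (n : ℝ) ≤ t) : n ≤ ⌊t⌋₊ := Nat.le_floor h

/-- slope condition on the lower part -/
lemma lo_slope (h : Std m 0 a b) (S : Spl m a b p q) (s : ℝ) (hs : s ∈ Ico (0 : ℝ) p) (t : ℝ)
    (ht : t ∈ Ico (0 : ℝ) p) (hst : s ≤ t) : dpl b s * dpl a t ≤ dpl a s * dpl b t := by
  have h2 := (dpl_nat_lt a ht.1 ht.2).1
  exact slope_lo h S (Nat.floor_le_floor hst) h2

lemma lo_pos (S : Spl m a b p q) (t : ℝ) (ht : t ∈ Ico (0 : ℝ) p) : 0 < dpl a t :=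
  S.lo _ (dpl_nat_lt a ht.1 ht.2).1

lemma lo_b (h : Std m 0 a b) (S : Spl m a b p q) (t : ℝ) (ht : t ∈ Ico (0 : ℝ) p) :
    0 ≤ dpl b t := db_nonneg h S (dpl_nat_lt a ht.1 ht.2).1

lemma up_slope (h : Std m 0 a b) (S : Spl m a b p q) (s : ℝ) (hs : s ∈ Ico (q : ℝ) m) (t : ℝ)
    (ht : t ∈ Ico (q : ℝ) m) (hst : s ≤ t) : dpl b s * dpl a t ≤ dpl a s * dpl b t :=
  slope_up h S (cast_le_floor hs.1) (Nat.floor_le_floor hst)
    (dpl_nat_lt a ((Nat.cast_nonneg q).trans ht.1) ht.2).1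

lemma up_neg (S : Spl m a b p q) (t : ℝ) (ht : t ∈ Ico (q : ℝ) m) : dpl a t < 0 :=
  S.up _ (cast_le_floor ht.1) (dpl_nat_lt a ((Nat.cast_nonneg q).trans ht.1) ht.2).1

lemma mid_zero (S : Spl m a b p q) (t : ℝ) (ht : t ∈ Ico (p : ℝ) q) : dpl a t = 0 :=
  S.ve _ (cast_le_floor ht.1) (dpl_nat_lt a ((Nat.cast_nonneg p).trans ht.1) ht.2).1

lemma mid_b (S : Spl m a b p q) (t : ℝ) (ht : t ∈ Ico (p : ℝ) q) : 0 < dpl b t :=
  S.vb _ (cast_le_floor ht.1) (dpl_nat_lt a ((Nat.cast_nonneg p).trans ht.1) ht.2).1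

lemma mid_int (S : Spl m a b p q) (f : ℝ → ℝ) : ∫ t in (p : ℝ)..q, f t * dpl a t = 0 := by
  rw [intervalIntegral.integral_congr_ae (g := fun _ => (0:ℝ))]
  · simp
  · have hne : ∀ᵐ u : ℝ, u ≠ q := by rw [ae_iff]; simp
    filter_upwards [hne] with t ht hI
    rw [uIoc_of_le (Nat.cast_le.2 S.pq)] at hI
    rw [mid_zero S t ⟨hI.1.le, lt_of_le_of_ne hI.2 ht⟩]; simp

lemma X_pq (S : Spl m a b p q) : pX v w a b q = pX v w a b p := by
  have h := (XAC (v := v) (w := w) (a := a) (b := b)).eq p q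
  rw [mid_int S] at h
  linarith

lemma Y_mono_lo (h : Std m 0 a b) (S : Spl m a b p q) {s t : ℝ} (h0 : 0 ≤ s) (hst : s ≤ t)
    (ht : t ≤ p) : pY v w a b m s ≤ pY v w a b m t := by
  have h1 := (YAC (v := v) (w := w) (a := a) (b := b) m).eq s t
  have h2 : 0 ≤ ∫ u in s..t, pe v w a b u * dpl b u := by
    rw [intervalIntegral.integral_of_le hst, integral_Ioc_eq_integral_Ioo]
    refine setIntegral_nonneg measurableSet_Ioo fun u hu => ?_
    exact mul_nonneg (pe_pos u).le (lo_b h S u ⟨h0.trans hu.1.le, hu.2.trans_le ht⟩)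
  linarith

lemma Y_pq (S : Spl m a b p q) : pY v w a b m p ≤ pY v w a b m q := by
  have h1 := (YAC (v := v) (w := w) (a := a) (b := b) m).eq p q
  have h2 : 0 ≤ ∫ u in (p : ℝ)..q, pe v w a b u * dpl b u := by
    rw [intervalIntegral.integral_of_le (Nat.cast_le.2 S.pq), integral_Ioc_eq_integral_Ioo]
    refine setIntegral_nonneg measurableSet_Ioo fun u hu => ?_
    exact mul_nonneg (pe_pos u).le (mid_b S u ⟨hu.1.le, hu.2⟩).le
  linarith

/-- the data of the two graph functions of the hat chain -/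
structure Hc (v w : ℝ) (a b : ℕ → ℝ) (m p q : ℕ) (T1 T2 : ℝ → ℝ) : Prop where
  lo : Up (pX v w a b) (pY v w a b m) (fun t => pe v w a b t * dpl a t) 1 p T1
  up : Dn (pX v w a b) (pY v w a b m) (fun t => pe v w a b t * dpl a t) q m T2

lemma exists_Hc (v w : ℝ) (h : Std m 0 a b) (S : Spl m a b p q) :
    ∃ T1 T2, Hc v w a b m p q T1 T2 := by
  have hp : (1 : ℝ) ≤ p := by exact_mod_cast S.p1
  obtain ⟨T1, h1⟩ := graph_up (α := 1) (β := p) hp (XAC (v := v) (w := w) (a := a) (b := b))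
    (YAC m) (ρ := pe v w a b) (p := dpl a) (q := dpl b) pe_pos (fun t => rfl) (fun t => rfl)
    (fun t ht => lo_pos S t ⟨by linarith [ht.1], ht.2⟩)
    (fun s hs t ht hst => lo_slope h S s ⟨by linarith [hs.1], hs.2⟩ t ⟨by linarith [ht.1], ht.2⟩ hst)
  obtain ⟨T2, h2⟩ := graph_dn (α := q) (β := m) (Nat.cast_le.2 S.qm.le)
    (XAC (v := v) (w := w) (a := a) (b := b))
    (YAC m) (ρ := pe v w a b) (p := dpl a) (q := dpl b) pe_pos (fun t => rfl) (fun t => rfl)
    (fun t ht => up_neg S t ht) (fun s hs t ht hst => up_slope h S s hs t ht hst)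
  exact ⟨T1, T2, h1, h2⟩

variable {T1 T2 : ℝ → ℝ}

/-- conversion of path integrals -/
lemma Hc.conv (H : Hc v w a b m p q T1 T2) (S : Spl m a b p q) {g : ℝ → ℝ} (hg : Continuous g) :
    ∫ t in (1 : ℝ)..m, g t * (pe v w a b t * dpl a t) =
      (∫ u in (pX v w a b 1)..(pX v w a b p), g (T1 u)) -
      ∫ u in (pX v w a b m)..(pX v w a b p), g (T2 u) := by
  have hp : (1 : ℝ) ≤ p := by exact_mod_cast S.p1
  have hqm : (q : ℝ) ≤ m := Nat.cast_le.2 S.qm.le
  have hi : ∀ s t, IntervalIntegrable (fun t => g t * (pe v w a b t * dpl a t)) volume s t :=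
    fun s t => (Rg.cmul hg (Rg.cmul peAC.cont (plAC a).rg)).int s t
  rw [← intervalIntegral.integral_add_adjacent_intervals (hi 1 p) (hi p m),
    ← intervalIntegral.integral_add_adjacent_intervals (hi p q) (hi q m)]
  have h1 := H.lo.int g hg 1 ⟨le_rfl, hp⟩ p ⟨hp, le_rfl⟩
  have h2 := H.up.int g hg q ⟨le_rfl, hqm⟩ m ⟨hqm, le_rfl⟩
  have h3 : ∫ t in (p : ℝ)..q, g t * (pe v w a b t * dpl a t) = 0 := by
    rw [← mid_int S (fun t => g t * pe v w a b t)]
    congr 1; funext t; ring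
  rw [h1, h2, h3, X_pq S, intervalIntegral.integral_symm (pX v w a b m) (pX v w a b p)]
  ring

end chain

end Pool.Agent.Work.MP_b5407d_pos_h47
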