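import Pool.Agent.Work.MP_b5407d_pos_helper47.HatW
import Pool.Agent.Work.MP_b5407d_pos_helper9.PathInfra

/-! # Graph functions of monotone pieces of a path (helper47) -/

set_option autoImplicit false

open MeasureTheory Set Filter Topology

namespace Pool.Agent.Work.MP_b5407d_pos_h47

open Pool.Agent.Work.MP_b5407d_pos_h9.FV (AC Rg NN)

/-- clamp to `[α, β]` -/
noncomputable def clp (α β t : ℝ) : ℝ := max α (min β t)

lemma clp_cont (α β : ℝ) : Continuous (clp α β) := by unfold clp; fun_prop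

lemma clp_mem {α β : ℝ} (h : α ≤ β) (t : ℝ) : clp α β t ∈ Icc α β :=
  ⟨le_max_left _ _, max_le h (min_le_left _ _)⟩

lemma clp_id {α β t : ℝ} (h : t ∈ Icc α β) : clp α β t = t := by
  unfold clp; rw [min_eq_right h.2, max_eq_right h.1]

lemma clp_mono {α β s t : ℝ} (h : s ≤ t) : clp α β s ≤ clp α β t := by
  unfold clp; exact max_le_max le_rfl (min_le_min le_rfl h)

lemma clp_mono' {α β s t : ℝ} (h : s ≤ t) : s - clp α β s ≤ t - clp α β t := by
  unfold clp
  rcases le_total β s with h1 | h1 <;> rcases le_total β t with h2 | h2 <;>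
  simp only [min_eq_left, min_eq_right, h1, h2] <;>
  rcases le_total α β with h3 | h3 <;> rcases le_total α s with h4 | h4 <;>
  rcases le_total α t with h5 | h5 <;>
  simp only [max_eq_left, max_eq_right, h3, h4, h5] <;> linarith

theorem exists_inv {X : ℝ → ℝ} {α β : ℝ} (hab : α ≤ β) (hX : Continuous X)
    (hm : StrictMonoOn X (Icc α β)) :
    ∃ T : ℝ → ℝ, Continuous T ∧ (∀ u, T u ∈ Icc α β) ∧ (∀ t ∈ Icc α β, T (X t) = t) ∧
      (∀ u ∈ Icc (X α) (X β), X (T u) = u) := by
  set Z : ℝ → ℝ := fun t => X (clp α β t) + (t - clp α β t) with hZ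
  have hZm : StrictMono Z := by
    intro s t hst
    have h1 : clp α β s ≤ clp α β t := clp_mono hst.le
    have h2 : s - clp α β s ≤ t - clp α β t := clp_mono' hst.le
    simp only [hZ]
    rcases eq_or_lt_of_le h1 with h | h
    · rw [h]; linarith
    · have := hm (clp_mem hab s) (clp_mem hab t) h
      linarith
  have hZc : Continuous Z := by
    have := clp_cont α β
    simp only [hZ]; fun_prop
  have mα : α ∈ Icc α β := ⟨le_rfl, hab⟩
  have mβ : β ∈ Icc α β := ⟨hab, le_rfl⟩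
  have hZs : Function.Surjective Z := by
    refine hZc.surjective ?_ ?_
    · refine tendsto_atTop_mono (f := fun t => t + (X α - β)) (fun t => ?_)
        (tendsto_atTop_add_const_right _ _ tendsto_id)
      have h1 := hm.monotoneOn mα (clp_mem hab t) (clp_mem hab t).1
      have h2 := (clp_mem hab t).2
      simp only [hZ]; linarith
    · refine tendsto_atBot_mono (g := Z) (f := fun t => t + (X β - α)) (fun t => ?_)
        (tendsto_atBot_add_const_right _ _ tendsto_id)
      have h1 := hm.monotoneOn (clp_mem hab t) mβ (clp_mem hab t).2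
      have h2 := (clp_mem hab t).1
      simp only [hZ]; linarith
  set I := hZm.orderIsoOfSurjective Z hZs with hI
  have hIZ : ∀ t, I t = Z t := fun t => rfl
  have hIs : ∀ u, Z (I.symm u) = u := fun u => by rw [← hIZ]; exact I.apply_symm_apply u
  have hZα : Z α = X α := by simp only [hZ, clp_id mα]; ring
  have hZβ : Z β = X β := by simp only [hZ, clp_id mβ]; ring
  refine ⟨fun u => clp α β (I.symm u), (clp_cont α β).comp I.symm.continuous,
    fun u => clp_mem hab _, ?_, ?_⟩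
  · intro t ht
    have : I.symm (X t) = t := by
      have h1 : X t = I t := by rw [hIZ]; simp only [hZ, clp_id ht]; ring
      rw [h1]; exact I.symm_apply_apply t
    simp only [this]
    exact clp_id ht
  · intro u hu
    have h1 : α ≤ I.symm u := by
      rw [← hZm.le_iff_le, hIs, hZα]; exact hu.1
    have h2 : I.symm u ≤ β := by
      rw [← hZm.le_iff_le, hIs, hZβ]; exact hu.2
    have h3 := hIs u
    simp only [hZ, clp_id (⟨h1, h2⟩ : I.symm u ∈ Icc α β)] at h3
    simp only [clp_id (⟨h1, h2⟩ : I.symm u ∈ Icc α β)]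
    linarith

/-- change of variables -/
theorem cov {X X' T h : ℝ → ℝ} {α β : ℝ} (hX : AC X X') (hT : Continuous T)
    (hTX : ∀ t ∈ Icc α β, T (X t) = t) (hh : Continuous h) {s t : ℝ} (hs : s ∈ Icc α β)
    (ht : t ∈ Icc α β) : ∫ u in s..t, h u * X' u = ∫ u in X s..X t, h (T u) := by
  have hc : Continuous (fun u => h (T u)) := hh.comp hT
  have hG : ∀ u, HasDerivAt (fun u => ∫ z in X s..u, h (T z)) (h (T u)) u := fun u =>
    intervalIntegral.integral_hasDerivAt_right (hc.intervalIntegrable _ _)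
      hc.aestronglyMeasurable.stronglyMeasurableAtFilter hc.continuousAt
  have h1 := (AC.comp (p := fun u => ∫ z in X s..u, h (T z)) (p' := fun u => h (T u)) hG hc
    hX).eq s t
  simp only [intervalIntegral.integral_same, sub_zero] at h1
  rw [← h1]
  refine intervalIntegral.integral_congr ?_
  intro u hu
  have : u ∈ Icc α β := (ordConnected_Icc.uIcc_subset hs ht) hu
  simp only [hTX u this]

lemma ac_strictMono {X X' : ℝ → ℝ} {α β : ℝ} (hX : AC X X') (hp : ∀ t ∈ Ico α β, 0 < X' t) :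
    StrictMonoOn X (Icc α β) := by
  intro s hs t ht hst
  have h1 := hX.eq s t
  have h2 := intervalIntegral.intervalIntegral_pos_of_pos_on (hX.rg.int s t)
    (fun x hx => hp x ⟨hs.1.trans hx.1.le, hx.2.trans_le ht.2⟩) hst
  linarith

/-- monotone piece, `X` increasing -/
structure Up (X Y X' : ℝ → ℝ) (α β : ℝ) (T : ℝ → ℝ) : Prop where
  c : Continuous T
  m : ∀ u, T u ∈ Icc α β
  TX : ∀ t ∈ Icc α β, T (X t) = t
  XT : ∀ u ∈ Icc (X α) (X β), X (T u) = u
  cv : ConvexOn ℝ (Icc (X α) (X β)) (fun u => Y (T u))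
  sm : StrictMonoOn X (Icc α β)
  int : ∀ h : ℝ → ℝ, Continuous h → ∀ s ∈ Icc α β, ∀ t ∈ Icc α β,
    ∫ u in s..t, h u * X' u = ∫ u in X s..X t, h (T u)

theorem graph_up {α β : ℝ} (hab : α ≤ β) {X Y X' Y' ρ p q : ℝ → ℝ} (hX : AC X X') (hY : AC Y Y')
    (hρ : ∀ t, 0 < ρ t) (eX : ∀ t, X' t = ρ t * p t) (eY : ∀ t, Y' t = ρ t * q t)
    (hp : ∀ t ∈ Ico α β, 0 < p t)
    (hs : ∀ s ∈ Ico α β, ∀ t ∈ Ico α β, s ≤ t → q s * p t ≤ p s * q t) :
    ∃ T, Up X Y X' α β T := by
  have hX' : ∀ t ∈ Ico α β, 0 < X' t := fun t ht => by rw [eX]; exact mul_pos (hρ t) (hp t ht)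
  have sm := ac_strictMono hX hX'
  obtain ⟨T, hT, hm, hTX, hXT⟩ := exists_inv hab hX.cont sm
  refine ⟨T, hT, hm, hTX, hXT, ?_, sm, fun h hh s hs t ht => cov hX hT hTX hh hs ht⟩
  -- three points
  have h3 : ∀ t1 ∈ Icc α β, ∀ t2, ∀ t3 ∈ Icc α β, t1 < t2 → t2 < t3 →
      (Y t2 - Y t1) * (X t3 - X t2) ≤ (Y t3 - Y t2) * (X t2 - X t1) := by
    intro t1 m1 t2 t3 m3 h12 h23
    have m2 : t2 ∈ Ico α β := ⟨m1.1.trans h12.le, h23.trans_le m3.2⟩
    have hP := hp t2 m2
    have a1 : p t2 * (Y t2 - Y t1) ≤ q t2 * (X t2 - X t1) := by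
      rw [← hX.eq, ← hY.eq, ← intervalIntegral.integral_const_mul,
        ← intervalIntegral.integral_const_mul]
      refine intervalIntegral.integral_mono_on_of_le_Ioo h12.le ((hY.rg.int _ _).const_mul _)
        ((hX.rg.int _ _).const_mul _) ?_
      intro s hs'
      rw [eX, eY]
      have := mul_le_mul_of_nonneg_left (hs s ⟨m1.1.trans hs'.1.le, hs'.2.trans m2.2⟩ t2 m2
        hs'.2.le) (hρ s).le
      linarith
    have a2 : q t2 * (X t3 - X t2) ≤ p t2 * (Y t3 - Y t2) := by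
      rw [← hX.eq, ← hY.eq, ← intervalIntegral.integral_const_mul,
        ← intervalIntegral.integral_const_mul]
      refine intervalIntegral.integral_mono_on_of_le_Ioo h23.le ((hX.rg.int _ _).const_mul _)
        ((hY.rg.int _ _).const_mul _) ?_
      intro s hs'
      rw [eX, eY]
      have := mul_le_mul_of_nonneg_left (hs t2 m2 s ⟨m2.1.trans hs'.1.le, hs'.2.trans_le m3.2⟩
        hs'.1.le) (hρ s).le
      linarith
    have b1 : 0 < X t2 - X t1 := sub_pos.2 (sm m1 ⟨m2.1, m2.2.le⟩ h12)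
    have b2 : 0 < X t3 - X t2 := sub_pos.2 (sm ⟨m2.1, m2.2.le⟩ m3 h23)
    have c1 := mul_le_mul_of_nonneg_right a1 b2.le
    have c2 := mul_le_mul_of_nonneg_right a2 b1.le
    have c3 : p t2 * ((Y t2 - Y t1) * (X t3 - X t2)) ≤ p t2 * ((Y t3 - Y t2) * (X t2 - X t1)) := by
      linarith
    exact le_of_mul_le_mul_left c3 hP
  refine convexOn_of_slope_mono_adjacent (convex_Icc _ _) ?_
  intro x y z hx hz hxy hyz
  have hy : y ∈ Icc (X α) (X β) := ⟨hx.1.trans hxy.le, hyz.le.trans hz.2⟩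
  have t12 : T x < T y := by
    rw [← sm.lt_iff_lt (hm x) (hm y), hXT x hx, hXT y hy]; exact hxy
  have t23 : T y < T z := by
    rw [← sm.lt_iff_lt (hm y) (hm z), hXT y hy, hXT z hz]; exact hyz
  have h4 := h3 (T x) (hm x) (T y) (T z) (hm z) t12 t23
  rw [hXT x hx, hXT y hy, hXT z hz] at h4
  rw [div_le_div_iff₀ (by linarith) (by linarith)]
  exact h4

/-- monotone piece, `X` decreasing -/
structure Dn (X Y X' : ℝ → ℝ) (α β : ℝ) (T : ℝ → ℝ) : Prop where
  c : Continuous T
  m : ∀ u, T u ∈ Icc α β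
  TX : ∀ t ∈ Icc α β, T (X t) = t
  XT : ∀ u ∈ Icc (X β) (X α), X (T u) = u
  cv : ConcaveOn ℝ (Icc (X β) (X α)) (fun u => Y (T u))
  sm : StrictAntiOn X (Icc α β)
  int : ∀ h : ℝ → ℝ, Continuous h → ∀ s ∈ Icc α β, ∀ t ∈ Icc α β,
    ∫ u in s..t, h u * X' u = ∫ u in X s..X t, h (T u)

theorem graph_dn {α β : ℝ} (hab : α ≤ β) {X Y X' Y' ρ p q : ℝ → ℝ} (hX : AC X X') (hY : AC Y Y')
    (hρ : ∀ t, 0 < ρ t) (eX : ∀ t, X' t = ρ t * p t) (eY : ∀ t, Y' t = ρ t * q t)
    (hp : ∀ t ∈ Ico α β, p t < 0)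
    (hs : ∀ s ∈ Ico α β, ∀ t ∈ Ico α β, s ≤ t → q s * p t ≤ p s * q t) :
    ∃ T, Dn X Y X' α β T := by
  obtain ⟨T, U⟩ := graph_up hab (X := fun t => -X t) (Y := fun t => -Y t) (X' := fun t => -X' t)
    (Y' := fun t => -Y' t) (ρ := ρ) (p := fun t => -p t) (q := fun t => -q t) hX.neg hY.neg hρ
    (fun t => by rw [eX]; ring) (fun t => by rw [eY]; ring)
    (fun t ht => by have := hp t ht; linarith)
    (fun s hs' t ht h => by have := hs s hs' t ht h; linarith)
  have hneg : ∀ {u : ℝ}, u ∈ Icc (X β) (X α) → -u ∈ Icc (-X α) (-X β) := fun hu =>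
    ⟨by linarith [hu.2], by linarith [hu.1]⟩
  refine ⟨fun u => T (-u), U.c.comp continuous_neg, fun u => U.m _, fun t ht => U.TX t ht, ?_, ?_,
    ?_, ?_⟩
  · intro u hu
    have := U.XT (-u) (hneg hu)
    linarith
  · refine ⟨convex_Icc _ _, ?_⟩
    intro x hx y hy p' q' hp' hq' hpq
    have := U.cv.2 (hneg hx) (hneg hy) hp' hq' hpq
    simp only [smul_eq_mul] at this ⊢
    have e : -(p' * x + q' * y) = p' * -x + q' * -y := by ring
    rw [e]
    linarith
  · intro s hs' t ht hst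
    have := U.sm hs' ht hst
    linarith
  · intro h hh s hs' t ht
    have h1 := U.int h hh s hs' t ht
    have h2 : ∫ u in s..t, h u * -X' u = -∫ u in s..t, h u * X' u := by
      rw [← intervalIntegral.integral_neg]; congr 1; funext u; ring
    rw [h2] at h1
    have h3 : ∫ u in X s..X t, h (T (-u)) = ∫ u in (-X t)..(-X s), h (T u) := by
      rw [intervalIntegral.integral_comp_neg (fun u => h (T u))]
    rw [h3, intervalIntegral.integral_symm (-X s) (-X t)]
    linarith

end Pool.Agent.Work.MP_b5407d_pos_h47
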