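import Mathlib

/-! # MP_b5407d_gt (POS, case without corner): the comparison in the hat plane (helper47)

`Φ` is the upper (concave) and `ψ` the lower (convex, increasing) part of the hat chain. -/

set_option autoImplicit false

open MeasureTheory Set Filter Topology

namespace Pool.Agent.Work.MP_b5407d_pos_h47

/-- the weight of the hat plane -/
def ef (c0 v w X Y : ℝ) : ℝ := c0 - v * X - w * Y

/-- `∫_lo^hi 2 f / e^3 dY` for an affine function `f` -/
noncomputable def sl (c0 v w : ℝ) (f : ℝ → ℝ → ℝ) (X lo hi : ℝ) : ℝ :=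
  (hi - lo) * (f X hi * ef c0 v w X lo + f X lo * ef c0 v w X hi) /
    (ef c0 v w X hi ^ 2 * ef c0 v w X lo ^ 2)

section
variable {c0 v w : ℝ}

lemma sl_comb (α β : ℝ) (f g k : ℝ → ℝ → ℝ) (X lo hi : ℝ) :
    sl c0 v w (fun X Y => α * f X Y + β * g X Y + k X Y) X lo hi =
      α * sl c0 v w f X lo hi + β * sl c0 v w g X lo hi + sl c0 v w k X lo hi := by
  unfold sl
  ring

lemma sl_nonneg {f : ℝ → ℝ → ℝ} {X lo hi : ℝ} (h : lo ≤ hi) (h1 : 0 ≤ f X hi) (h2 : 0 ≤ f X lo)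
    (e1 : 0 < ef c0 v w X hi) (e2 : 0 < ef c0 v w X lo) : 0 ≤ sl c0 v w f X lo hi := by
  unfold sl
  have := sub_nonneg.2 h
  positivity

lemma sl_nonneg' {f : ℝ → ℝ → ℝ} {X lo hi : ℝ} (h : hi ≤ lo) (h1 : f X hi ≤ 0) (h2 : f X lo ≤ 0)
    (e1 : 0 < ef c0 v w X hi) (e2 : 0 < ef c0 v w X lo) : 0 ≤ sl c0 v w f X lo hi := by
  unfold sl
  refine div_nonneg ?_ (by positivity)
  refine mul_nonneg_of_nonpos_of_nonpos (by linarith) ?_
  have a1 := mul_nonpos_of_nonpos_of_nonneg h1 e2.le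
  have a2 := mul_nonpos_of_nonpos_of_nonneg h2 e1.le
  linarith

lemma sl_pos {f : ℝ → ℝ → ℝ} {X lo hi : ℝ} (h : lo < hi) (h1 : 0 < f X hi) (h2 : 0 ≤ f X lo)
    (e1 : 0 < ef c0 v w X hi) (e2 : 0 < ef c0 v w X lo) : 0 < sl c0 v w f X lo hi := by
  unfold sl
  have := sub_pos.2 h
  positivity

lemma sl_pos' {f : ℝ → ℝ → ℝ} {X lo hi : ℝ} (h : hi < lo) (h1 : f X hi < 0) (h2 : f X lo ≤ 0)
    (e1 : 0 < ef c0 v w X hi) (e2 : 0 < ef c0 v w X lo) : 0 < sl c0 v w f X lo hi := by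
  unfold sl
  refine div_pos ?_ (by positivity)
  refine mul_pos_of_neg_of_neg (by linarith) ?_
  have a1 := mul_neg_of_neg_of_pos h1 e2
  have a2 := mul_nonpos_of_nonpos_of_nonneg h2 e1.le
  linarith

lemma sl_cont {f : ℝ → ℝ → ℝ} (hf : Continuous (fun p : ℝ × ℝ => f p.1 p.2)) {s : Set ℝ}
    {lo hi : ℝ → ℝ} (hl : ContinuousOn lo s) (hh : ContinuousOn hi s)
    (e1 : ∀ X ∈ s, 0 < ef c0 v w X (hi X)) (e2 : ∀ X ∈ s, 0 < ef c0 v w X (lo X)) :
    ContinuousOn (fun X => sl c0 v w f X (lo X) (hi X)) s := by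
  have he1 : ContinuousOn (fun X => ef c0 v w X (hi X)) s := by unfold ef; fun_prop
  have he2 : ContinuousOn (fun X => ef c0 v w X (lo X)) s := by unfold ef; fun_prop
  have hf1 : ContinuousOn (fun X => f X (hi X)) s :=
    hf.comp_continuousOn (continuousOn_id.prodMk hh)
  have hf2 : ContinuousOn (fun X => f X (lo X)) s :=
    hf.comp_continuousOn (continuousOn_id.prodMk hl)
  unfold sl
  refine ContinuousOn.div ((hh.sub hl).mul ((hf1.mul he2).add (hf2.mul he1)))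
    ((he1.pow 2).mul (he2.pow 2)) ?_
  intro X hX
  have := e1 X hX
  have := e2 X hX
  positivity

end

/-! ### convexity in one variable -/

lemma conc3 {s : Set ℝ} {f : ℝ → ℝ} (hf : ConcaveOn ℝ s f) {x y z : ℝ} (hx : x ∈ s) (hz : z ∈ s)
    (h1 : x ≤ y) (h2 : y ≤ z) : (z - y) * f x + (y - x) * f z ≤ (z - x) * f y := by
  rcases eq_or_lt_of_le (h1.trans h2) with h | h
  · have e1 : y = x := le_antisymm (by linarith) h1
    have e2 : z = x := h.symm
    subst e1; subst e2; simp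
  · have hzx : 0 < z - x := by linarith
    have := hf.2 hx hz (div_nonneg (by linarith : 0 ≤ z - y) hzx.le)
      (div_nonneg (by linarith : 0 ≤ y - x) hzx.le) (by field_simp; ring)
    have e : (z - y) / (z - x) * x + (y - x) / (z - x) * z = y := by field_simp; ring
    simp only [smul_eq_mul] at this
    rw [e] at this
    have h3 : (z - x) * ((z - y) / (z - x) * f x + (y - x) / (z - x) * f z) =
        (z - y) * f x + (y - x) * f z := by field_simp
    have h4 := mul_le_mul_of_nonneg_left this hzx.le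
    linarith

lemma conv3 {s : Set ℝ} {f : ℝ → ℝ} (hf : ConvexOn ℝ s f) {x y z : ℝ} (hx : x ∈ s) (hz : z ∈ s)
    (h1 : x ≤ y) (h2 : y ≤ z) : (z - x) * f y ≤ (z - y) * f x + (y - x) * f z := by
  have := conc3 hf.neg hx hz h1 h2
  simp only [Pi.neg_apply] at this
  linarith


lemma sgn_conv {k : ℝ → ℝ} {p q r : ℝ} (hk : ConvexOn ℝ (Icc p q) k) (h1 : p < r) (h2 : r ≤ q)
    (h3 : k p ≤ 0) (h4 : k r = 0) :
    (∀ X ∈ Icc p q, r ≤ X → 0 ≤ k X) ∧ (∀ X ∈ Icc p q, X ≤ r → k X ≤ 0) := by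
  have mp : p ∈ Icc p q := ⟨le_rfl, h1.le.trans h2⟩
  have mr : r ∈ Icc p q := ⟨h1.le, h2⟩
  constructor
  · intro X hX h
    have h5 := conv3 hk mp hX h1.le h
    rw [h4] at h5
    by_contra hn
    push Not at hn
    have h6 : (r - p) * k X < 0 := mul_neg_of_pos_of_neg (by linarith) hn
    have h7 : (X - r) * k p ≤ 0 := mul_nonpos_of_nonneg_of_nonpos (by linarith) h3
    linarith
  · intro X hX h
    have h5 := conv3 hk mp mr hX.1 h
    rw [h4] at h5
    by_contra hn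
    push Not at hn
    have h6 : 0 < (r - p) * k X := mul_pos (by linarith) hn
    have h7 : (r - X) * k p ≤ 0 := mul_nonpos_of_nonneg_of_nonpos (by linarith) h3
    linarith

/-! ### the hat chain -/

/-- data of a hat chain -/
structure Hat (c0 v w XN X0 c z2 : ℝ) (Φ ψ : ℝ → ℝ) : Prop where
  hN : XN < X0
  hc : X0 ≤ c
  Φc : ContinuousOn Φ (Icc XN c)
  Φv : ConcaveOn ℝ (Icc XN c) Φ
  ψc : ContinuousOn ψ (Icc X0 c)
  ψv : ConvexOn ℝ (Icc X0 c) ψ
  ψm : MonotoneOn ψ (Icc X0 c)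
  top : ψ c ≤ Φ c
  ez : ∀ X ∈ Icc XN X0, 0 < ef c0 v w X z2
  eΦ : ∀ X ∈ Icc XN c, 0 < ef c0 v w X (Φ X)
  eψ : ∀ X ∈ Icc X0 c, 0 < ef c0 v w X (ψ X)
  hz : ψ X0 < z2

/-- the functional `∫ 2 f / e^3` over the region between the chain and the box path -/
noncomputable def II (c0 v w XN X0 c z2 : ℝ) (Φ ψ : ℝ → ℝ) (f : ℝ → ℝ → ℝ) : ℝ :=
  (∫ X in XN..X0, sl c0 v w f X z2 (Φ X)) + ∫ X in X0..c, sl c0 v w f X (ψ X) (Φ X)

/-- the same with the additional weight `X - X0` -/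
noncomputable def IF (c0 v w XN X0 c z2 : ℝ) (Φ ψ : ℝ → ℝ) (f : ℝ → ℝ → ℝ) : ℝ :=
  (∫ X in XN..X0, (X - X0) * sl c0 v w f X z2 (Φ X)) +
    ∫ X in X0..c, (X - X0) * sl c0 v w f X (ψ X) (Φ X)

section main
variable {c0 v w XN X0 c z2 : ℝ} {Φ ψ : ℝ → ℝ}

lemma Hat.cl (H : Hat c0 v w XN X0 c z2 Φ ψ) {f : ℝ → ℝ → ℝ}
    (hf : Continuous (fun p : ℝ × ℝ => f p.1 p.2)) :
    ContinuousOn (fun X => sl c0 v w f X z2 (Φ X)) (Icc XN X0) :=
  sl_cont (lo := fun _ => z2) hf continuousOn_const (H.Φc.mono (Icc_subset_Icc_right H.hc))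
    (fun X hX => H.eΦ X ⟨hX.1, hX.2.trans H.hc⟩) H.ez

lemma Hat.cr (H : Hat c0 v w XN X0 c z2 Φ ψ) {f : ℝ → ℝ → ℝ}
    (hf : Continuous (fun p : ℝ × ℝ => f p.1 p.2)) :
    ContinuousOn (fun X => sl c0 v w f X (ψ X) (Φ X)) (Icc X0 c) :=
  sl_cont hf H.ψc (H.Φc.mono (Icc_subset_Icc_left H.hN.le))
    (fun X hX => H.eΦ X ⟨H.hN.le.trans hX.1, hX.2⟩) H.eψ

lemma Hat.il (H : Hat c0 v w XN X0 c z2 Φ ψ) {f : ℝ → ℝ → ℝ}
    (hf : Continuous (fun p : ℝ × ℝ => f p.1 p.2)) :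
    IntervalIntegrable (fun X => sl c0 v w f X z2 (Φ X)) volume XN X0 :=
  ContinuousOn.intervalIntegrable_of_Icc H.hN.le (H.cl hf)

lemma Hat.ir (H : Hat c0 v w XN X0 c z2 Φ ψ) {f : ℝ → ℝ → ℝ}
    (hf : Continuous (fun p : ℝ × ℝ => f p.1 p.2)) :
    IntervalIntegrable (fun X => sl c0 v w f X (ψ X) (Φ X)) volume X0 c :=
  ContinuousOn.intervalIntegrable_of_Icc H.hc (H.cr hf)

lemma Hat.comb (H : Hat c0 v w XN X0 c z2 Φ ψ) {f g k : ℝ → ℝ → ℝ} (α β : ℝ)
    (hf : Continuous (fun p : ℝ × ℝ => f p.1 p.2)) (hg : Continuous (fun p : ℝ × ℝ => g p.1 p.2))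
    (hk : Continuous (fun p : ℝ × ℝ => k p.1 p.2)) :
    II c0 v w XN X0 c z2 Φ ψ (fun X Y => α * f X Y + β * g X Y + k X Y) =
      α * II c0 v w XN X0 c z2 Φ ψ f + β * II c0 v w XN X0 c z2 Φ ψ g +
        II c0 v w XN X0 c z2 Φ ψ k := by
  unfold II
  simp only [sl_comb]
  rw [intervalIntegral.integral_add (((H.il hf).const_mul α).add ((H.il hg).const_mul β)) (H.il hk),
    intervalIntegral.integral_add ((H.il hf).const_mul α) ((H.il hg).const_mul β),
    intervalIntegral.integral_add (((H.ir hf).const_mul α).add ((H.ir hg).const_mul β)) (H.ir hk),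
    intervalIntegral.integral_add ((H.ir hf).const_mul α) ((H.ir hg).const_mul β),
    intervalIntegral.integral_const_mul, intervalIntegral.integral_const_mul,
    intervalIntegral.integral_const_mul, intervalIntegral.integral_const_mul]
  ring

lemma Hat.pos (H : Hat c0 v w XN X0 c z2 Φ ψ) {f : ℝ → ℝ → ℝ}
    (hf : Continuous (fun p : ℝ × ℝ => f p.1 p.2))
    (h1 : ∀ X ∈ Icc XN X0, 0 ≤ sl c0 v w f X z2 (Φ X))
    (h2 : ∀ X ∈ Icc X0 c, 0 ≤ sl c0 v w f X (ψ X) (Φ X))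
    (h3 : ∃ X ∈ Icc XN X0, 0 < sl c0 v w f X z2 (Φ X)) :
    0 < II c0 v w XN X0 c z2 Φ ψ f := by
  unfold II
  have a1 := intervalIntegral.integral_pos H.hN (H.cl hf) (fun x hx => h1 x ⟨hx.1.le, hx.2⟩) h3
  have a2 := intervalIntegral.integral_nonneg H.hc h2 (μ := volume)
  linarith

/-- the coordinate functions -/
def fF (X0 : ℝ) (X _ : ℝ) : ℝ := X - X0
def fG (z2 : ℝ) (_ Y : ℝ) : ℝ := Y - z2

lemma cont_F : Continuous (fun p : ℝ × ℝ => fF X0 p.1 p.2) := by unfold fF; fun_prop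
lemma cont_G : Continuous (fun p : ℝ × ℝ => fG z2 p.1 p.2) := by unfold fG; fun_prop
lemma cont_e : Continuous (fun p : ℝ × ℝ => ef c0 v w p.1 p.2) := by unfold ef; fun_prop

/-- Case 0: the upper chain passes below the end point of the lower chain -/
lemma Hat.case0 (H : Hat c0 v w XN X0 c z2 Φ ψ) (h0 : Φ X0 < ψ X0)
    (I0 : II c0 v w XN X0 c z2 Φ ψ (ef c0 v w) = 0) :
    0 < II c0 v w XN X0 c z2 Φ ψ (fF X0) := by
  have mX0 : X0 ∈ Icc XN c := ⟨H.hN.le, H.hc⟩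
  have mc : c ∈ Icc XN c := ⟨H.hN.le.trans H.hc, le_rfl⟩
  have mX0' : X0 ∈ Icc X0 c := ⟨le_rfl, H.hc⟩
  have mc' : c ∈ Icc X0 c := ⟨H.hc, le_rfl⟩
  have hψ0c : ψ X0 ≤ ψ c := H.ψm mX0' mc' H.hc
  have hX0c : X0 < c := by
    rcases eq_or_lt_of_le H.hc with h | h
    · exfalso
      have := H.top
      rw [← h] at this
      linarith
    · exact h
  -- the crossing
  have hgc : ContinuousOn (fun X => Φ X - ψ X) (Icc X0 c) :=
    (H.Φc.mono (Icc_subset_Icc_left H.hN.le)).sub H.ψc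
  have hgv : ConcaveOn ℝ (Icc X0 c) (fun X => Φ X - ψ X) := by
    have := (H.Φv.subset (Icc_subset_Icc_left H.hN.le) (convex_Icc X0 c)).sub H.ψv
    exact this
  obtain ⟨Xc, hXc, hleast⟩ : ∃ Xc, IsLeast {X | X ∈ Icc X0 c ∧ 0 ≤ Φ X - ψ X} Xc := by
    have hcl : IsCompact {X | X ∈ Icc X0 c ∧ 0 ≤ Φ X - ψ X} := by
      have : {X | X ∈ Icc X0 c ∧ 0 ≤ Φ X - ψ X} =
          Icc X0 c ∩ (fun X => Φ X - ψ X) ⁻¹' (Ici 0) := by
        ext X; simp
      rw [this]
      exact isCompact_Icc.of_isClosed_subset (hgc.preimage_isClosed_of_isClosed isClosed_Icc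
        isClosed_Ici) inter_subset_left
    exact hcl.exists_isLeast ⟨c, mc', sub_nonneg.2 H.top⟩
  obtain ⟨mXc, hgXc⟩ := hXc
  have hlt : ∀ X ∈ Icc X0 c, X < Xc → Φ X < ψ X := by
    intro X hX h
    by_contra hn
    push Not at hn
    have := hleast ⟨hX, sub_nonneg.2 hn⟩
    linarith
  have hX0Xc : X0 < Xc := by
    rcases eq_or_lt_of_le mXc.1 with h | h
    · exfalso; rw [← h] at hgXc; linarith
    · exact h
  have hXc0 : Φ Xc = ψ Xc := by
    have := intermediate_value_Icc mXc.1 (hgc.mono (Icc_subset_Icc_right mXc.2))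
    obtain ⟨X', hX', h'⟩ := this (show (0 : ℝ) ∈ Icc (Φ X0 - ψ X0) (Φ Xc - ψ Xc) from
      ⟨by linarith, hgXc⟩)
    have h1 := hleast ⟨⟨hX'.1, hX'.2.trans mXc.2⟩, (show (0:ℝ) ≤ Φ X' - ψ X' from h'.ge)⟩
    have h2 : X' = Xc := le_antisymm hX'.2 h1
    rw [h2] at h'
    simp only at h'
    linarith
  have hge : ∀ X ∈ Icc X0 c, Xc ≤ X → ψ X ≤ Φ X := by
    intro X hX h
    have h1 := conc3 hgv mXc mc' h hX.2
    have h2 := H.top
    have h3 : 0 ≤ (c - X) * (Φ Xc - ψ Xc) + (X - Xc) * (Φ c - ψ c) := by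
      have : 0 ≤ c - X := by linarith [hX.2]
      have : 0 ≤ X - Xc := by linarith
      have : 0 ≤ Φ c - ψ c := by linarith
      positivity
    rcases eq_or_lt_of_le (h.trans hX.2) with h4 | h4
    · have : X = c := le_antisymm hX.2 (by linarith)
      rw [this]; exact h2
    · by_contra hn
      push Not at hn
      have : (c - Xc) * (Φ X - ψ X) < 0 := mul_neg_of_pos_of_neg (by linarith) (by linarith)
      linarith
  -- the line
  have heW : 0 < ef c0 v w Xc (Φ Xc) := H.eΦ Xc ⟨H.hN.le.trans mXc.1, mXc.2⟩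
  set κ := (Xc - X0) / ef c0 v w Xc (Φ Xc) with hκ
  have hκ0 : 0 < κ := div_pos (by linarith) heW
  have hκe : κ * ef c0 v w Xc (Φ Xc) = Xc - X0 := by rw [hκ]; field_simp
  have hκe' : κ * ef c0 v w Xc (ψ Xc) = Xc - X0 := by rw [← hXc0]; exact hκe
  -- the combination
  have hcomb := H.comb (f := ef c0 v w) (g := fun _ _ => 0) (k := fF X0) (-κ) 0 cont_e
    continuous_const cont_F
  rw [I0] at hcomb
  have key : 0 < II c0 v w XN X0 c z2 Φ ψ
      (fun X Y => -κ * ef c0 v w X Y + 0 * (fun _ _ => (0:ℝ)) X Y + fF X0 X Y) := by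
    have hcc : Continuous (fun p : ℝ × ℝ =>
        -κ * ef c0 v w p.1 p.2 + 0 * (fun _ _ => (0:ℝ)) p.1 p.2 + fF X0 p.1 p.2) := by
      unfold ef fF; fun_prop
    have hΦl : ∀ X ∈ Icc XN X0, Φ X < z2 := by
      intro X hX
      have h1 := conc3 H.Φv (x := X) (y := X0) (z := c) ⟨hX.1, hX.2.trans H.hc⟩ mc hX.2 H.hc
      by_contra hn
      push Not at hn
      have h2 := H.hz
      have h3 := H.top
      have h4 : 0 < (c - X0) * (Φ X - Φ X0) := mul_pos (by linarith) (by linarith)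
      have h5 : 0 ≤ (X0 - X) * (Φ c - Φ X0) := mul_nonneg (by linarith [hX.2]) (by linarith)
      nlinarith
    have hleft : ∀ X ∈ Icc XN X0, 0 < sl c0 v w
        (fun X Y => -κ * ef c0 v w X Y + 0 * (fun _ _ => (0:ℝ)) X Y + fF X0 X Y) X z2 (Φ X) := by
      intro X hX
      have e1 := H.eΦ X ⟨hX.1, hX.2.trans H.hc⟩
      have e2 := H.ez X hX
      refine sl_pos' (hΦl X hX) ?_ ?_ e1 e2
      · simp only [fF]
        have := mul_pos hκ0 e1
        linarith [hX.2]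
      · simp only [fF]
        have := mul_pos hκ0 e2
        linarith [hX.2]
    refine H.pos hcc (fun X hX => (hleft X hX).le) ?_ ⟨XN, ⟨le_rfl, H.hN.le⟩,
      hleft XN ⟨le_rfl, H.hN.le⟩⟩
    intro X hX
    have e1 := H.eΦ X ⟨H.hN.le.trans hX.1, hX.2⟩
    have e2 := H.eψ X hX
    -- sign of `f'` on both curves
    have hs : (Xc ≤ X → 0 ≤ -κ * ef c0 v w X (Φ X) + (X - X0) ∧
        0 ≤ -κ * ef c0 v w X (ψ X) + (X - X0)) ∧
        (X ≤ Xc → -κ * ef c0 v w X (Φ X) + (X - X0) ≤ 0 ∧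
        -κ * ef c0 v w X (ψ X) + (X - X0) ≤ 0) := by
      have e0Φ := H.eΦ X0 mX0
      have e0ψ := H.eψ X0 mX0'
      have hle : X ≤ Xc → Φ X ≤ ψ X := by
        intro h
        rcases eq_or_lt_of_le h with h' | h'
        · rw [h', hXc0]
        · exact (hlt X hX h').le
      have haff : ConvexOn ℝ (Icc X0 c) (fun X => (1 + κ * v) * X + (-κ * c0 - X0)) := by
        have := ((LinearMap.mul ℝ ℝ (1 + κ * v)).convexOn (convex_Icc X0 c)).add_const
          (-κ * c0 - X0)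
        exact this
      rcases le_total 0 w with hw | hw
      · -- convexity along ψ
        have hκw : 0 ≤ κ * w := mul_nonneg hκ0.le hw
        have hk : ConvexOn ℝ (Icc X0 c) (fun X => -κ * ef c0 v w X (ψ X) + (X - X0)) := by
          have := haff.add (H.ψv.smul hκw)
          refine this.congr ?_
          intro X _
          simp only [Pi.add_apply, smul_eq_mul, ef]
          ring
        obtain ⟨k1, k2⟩ := sgn_conv hk hX0Xc mXc.2
          (by have := mul_pos hκ0 e0ψ; linarith) (by linarith)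
        constructor
        · intro h
          have h5 := k1 X hX h
          refine ⟨?_, h5⟩
          have h10 := mul_le_mul_of_nonneg_left (hge X hX h) hκw
          have h11 : -κ * ef c0 v w X (Φ X) = -κ * ef c0 v w X (ψ X) +
            (κ * w * Φ X - κ * w * ψ X) := by unfold ef; ring
          linarith
        · intro h
          have h5 := k2 X hX h
          refine ⟨?_, h5⟩
          have h10 := mul_le_mul_of_nonneg_left (hle h) hκw
          have h11 : -κ * ef c0 v w X (Φ X) = -κ * ef c0 v w X (ψ X) +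
            (κ * w * Φ X - κ * w * ψ X) := by unfold ef; ring
          linarith
      · -- concavity of Φ
        have hκw : 0 ≤ κ * (-w) := mul_nonneg hκ0.le (by linarith)
        have hk : ConvexOn ℝ (Icc X0 c) (fun X => -κ * ef c0 v w X (Φ X) + (X - X0)) := by
          have := haff.add ((H.Φv.subset (Icc_subset_Icc_left H.hN.le)
            (convex_Icc X0 c)).neg.smul hκw)
          refine this.congr ?_
          intro X _
          simp only [Pi.add_apply, smul_eq_mul, ef, Pi.neg_apply]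
          ring
        obtain ⟨k1, k2⟩ := sgn_conv hk hX0Xc mXc.2
          (by have := mul_pos hκ0 e0Φ; linarith) (by linarith)
        constructor
        · intro h
          have h5 := k1 X hX h
          refine ⟨h5, ?_⟩
          have h10 := mul_le_mul_of_nonneg_left (hge X hX h) hκw
          have h11 : -κ * ef c0 v w X (ψ X) = -κ * ef c0 v w X (Φ X) +
            (κ * -w * Φ X - κ * -w * ψ X) := by unfold ef; ring
          linarith
        · intro h
          have h5 := k2 X hX h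
          refine ⟨h5, ?_⟩
          have h10 := mul_le_mul_of_nonneg_left (hle h) hκw
          have h11 : -κ * ef c0 v w X (ψ X) = -κ * ef c0 v w X (Φ X) +
            (κ * -w * Φ X - κ * -w * ψ X) := by unfold ef; ring
          linarith
    rcases le_total Xc X with h | h
    · have := hs.1 h
      refine sl_nonneg (hge X hX h) ?_ ?_ e1 e2
      · simp only [fF]; linarith [this.1]
      · simp only [fF]; linarith [this.2]
    · have := hs.2 h
      have h2 : Φ X ≤ ψ X := by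
        rcases eq_or_lt_of_le h with h' | h'
        · rw [h', hXc0]
        · exact (hlt X hX h').le
      refine sl_nonneg' h2 ?_ ?_ e1 e2
      · simp only [fF]; linarith [this.1]
      · simp only [fF]; linarith [this.2]
  rw [hcomb] at key
  linarith

/-- Case A: simple chain with a point beyond `(X0, z2)` and `z2 ≤ Φ XN`: impossible -/
lemma Hat.caseD (H : Hat c0 v w XN X0 c z2 Φ ψ) (hA : ∀ X ∈ Icc X0 c, ψ X ≤ Φ X)
    {X1 : ℝ} (hX1 : X1 ∈ Icc X0 c) (hb : z2 < Φ X1) (hN : z2 ≤ Φ XN) :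
    0 < II c0 v w XN X0 c z2 Φ ψ (ef c0 v w) := by
  have mN : XN ∈ Icc XN c := ⟨le_rfl, H.hN.le.trans H.hc⟩
  have hlow : ∀ X ∈ Icc XN X0, z2 ≤ Φ X := by
    intro X hX
    have h1 := conc3 H.Φv mN ⟨H.hN.le.trans hX1.1, hX1.2⟩ hX.1 (hX.2.trans hX1.1)
    by_contra hn
    push Not at hn
    have h2 : 0 < X1 - XN := by linarith [H.hN, hX1.1]
    have h3 := mul_pos h2 (sub_pos.2 hn)
    have h4 := mul_nonneg (sub_nonneg.2 (hX.2.trans hX1.1)) (sub_nonneg.2 hN)
    have h5 := mul_nonneg (sub_nonneg.2 hX.1) (sub_nonneg.2 hb.le)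
    linarith
  have hX0 : z2 < Φ X0 := by
    have h1 := conc3 H.Φv mN ⟨H.hN.le.trans hX1.1, hX1.2⟩ H.hN.le hX1.1
    by_contra hn
    push Not at hn
    have h2 : 0 < X1 - XN := by linarith [H.hN, hX1.1]
    have h3 := mul_nonneg h2.le (sub_nonneg.2 hn)
    have h4 := mul_nonneg (sub_nonneg.2 hX1.1) (sub_nonneg.2 hN)
    have h5 := mul_pos (sub_pos.2 H.hN) (sub_pos.2 hb)
    linarith
  refine H.pos cont_e ?_ ?_ ⟨X0, ⟨H.hN.le, le_rfl⟩, ?_⟩
  · intro X hX
    have e1 := H.eΦ X ⟨hX.1, hX.2.trans H.hc⟩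
    have e2 := H.ez X hX
    exact sl_nonneg (hlow X hX) e1.le e2.le e1 e2
  · intro X hX
    have e1 := H.eΦ X ⟨H.hN.le.trans hX.1, hX.2⟩
    have e2 := H.eψ X hX
    exact sl_nonneg (hA X hX) e1.le e2.le e1 e2
  · have e1 := H.eΦ X0 ⟨H.hN.le, H.hc⟩
    have e2 := H.ez X0 ⟨H.hN.le, le_rfl⟩
    exact sl_pos hX0 e1 e2.le e1 e2

/-- Case A (b) -/
lemma Hat.caseB (H : Hat c0 v w XN X0 c z2 Φ ψ) (hA : ∀ X ∈ Icc X0 c, ψ X ≤ Φ X)
    {X1 : ℝ} (hX1 : X1 ∈ Icc X0 c) (hb : z2 < Φ X1) (h0 : Φ X0 ≤ z2) (hN : Φ XN < z2) :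
    0 < II c0 v w XN X0 c z2 Φ ψ (fF X0) := by
  have mN : XN ∈ Icc XN c := ⟨le_rfl, H.hN.le.trans H.hc⟩
  have hlow : ∀ X ∈ Icc XN X0, Φ X ≤ z2 := by
    intro X hX
    have h1 := conc3 H.Φv (x := X) (y := X0) (z := X1) ⟨hX.1, hX.2.trans H.hc⟩
      ⟨H.hN.le.trans hX1.1, hX1.2⟩ hX.2 hX1.1
    by_contra hn
    push Not at hn
    rcases eq_or_lt_of_le hX1.1 with h | h
    · rw [← h] at hb; linarith
    have h3 := mul_pos (sub_pos.2 h) (sub_pos.2 hn)
    have h4 := mul_nonneg (sub_nonneg.2 hX.2) (sub_nonneg.2 hb.le)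
    have h5 := mul_nonneg (sub_nonneg.2 (hX.2.trans hX1.1)) (sub_nonneg.2 h0)
    linarith
  refine H.pos cont_F ?_ ?_ ⟨XN, ⟨le_rfl, H.hN.le⟩, ?_⟩
  · intro X hX
    have e1 := H.eΦ X ⟨hX.1, hX.2.trans H.hc⟩
    have e2 := H.ez X hX
    exact sl_nonneg' (hlow X hX) (by unfold fF; linarith [hX.2]) (by unfold fF; linarith [hX.2])
      e1 e2
  · intro X hX
    have e1 := H.eΦ X ⟨H.hN.le.trans hX.1, hX.2⟩
    have e2 := H.eψ X hX
    exact sl_nonneg (hA X hX) (by unfold fF; linarith [hX.1]) (by unfold fF; linarith [hX.1]) e1 e2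
  · have e1 := H.eΦ XN mN
    have e2 := H.ez XN ⟨le_rfl, H.hN.le⟩
    exact sl_pos' hN (by unfold fF; linarith [H.hN]) (by unfold fF; linarith [H.hN]) e1 e2

/-- Case A (c) -/
lemma Hat.caseC (H : Hat c0 v w XN X0 c z2 Φ ψ) (hA : ∀ X ∈ Icc X0 c, ψ X ≤ Φ X)
    (h0 : z2 < Φ X0) (hN : Φ XN < z2) (I0 : II c0 v w XN X0 c z2 Φ ψ (ef c0 v w) = 0) :
    ∃ κ : ℝ, 0 ≤ κ ∧ 0 < κ * II c0 v w XN X0 c z2 Φ ψ (fF X0) +
      II c0 v w XN X0 c z2 Φ ψ (fG z2) := by
  have mN : XN ∈ Icc XN c := ⟨le_rfl, H.hN.le.trans H.hc⟩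
  have mX0 : X0 ∈ Icc XN c := ⟨H.hN.le, H.hc⟩
  have mX0' : X0 ∈ Icc X0 c := ⟨le_rfl, H.hc⟩
  obtain ⟨XT, mT, hT⟩ := intermediate_value_Icc H.hN.le
    (H.Φc.mono (Icc_subset_Icc_right H.hc)) (show z2 ∈ Icc (Φ XN) (Φ X0) from ⟨hN.le, h0.le⟩)
  have mTc : XT ∈ Icc XN c := ⟨mT.1, mT.2.trans H.hc⟩
  have hTX : XT < X0 := by
    rcases eq_or_lt_of_le mT.2 with h | h
    · rw [h] at hT; linarith
    · exact h
  have hlow : ∀ X ∈ Icc XN X0, X ≤ XT → Φ X ≤ z2 := by
    intro X hX h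
    have h1 := conc3 H.Φv (x := X) (y := XT) (z := X0) ⟨hX.1, hX.2.trans H.hc⟩ mX0 h mT.2
    by_contra hn
    push Not at hn
    rw [hT] at h1
    have h3 := mul_pos (sub_pos.2 hTX) (sub_pos.2 hn)
    have h4 := mul_nonneg (sub_nonneg.2 h) (sub_nonneg.2 h0.le)
    linarith
  have hup : ∀ X ∈ Icc XN X0, XT ≤ X → z2 ≤ Φ X := by
    intro X hX h
    have h1 := conc3 H.Φv mTc mX0 h hX.2
    by_contra hn
    push Not at hn
    rw [hT] at h1
    have h3 := mul_pos (sub_pos.2 hTX) (sub_pos.2 hn)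
    have h4 := mul_nonneg (sub_nonneg.2 h) (sub_nonneg.2 h0.le)
    linarith
  have e00 : 0 < ef c0 v w X0 (ψ X0) := H.eψ X0 mX0'
  have e02 : 0 < ef c0 v w X0 z2 := H.ez X0 ⟨H.hN.le, le_rfl⟩
  have eT2 : 0 < ef c0 v w XT z2 := H.ez XT mT
  set α := (z2 - ψ X0) / ef c0 v w X0 (ψ X0) with hα
  have hα0 : 0 < α := div_pos (sub_pos.2 H.hz) e00
  have hαe : α * ef c0 v w X0 (ψ X0) = z2 - ψ X0 := by rw [hα]; field_simp
  set κ := α * ef c0 v w XT z2 / (X0 - XT) with hκ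
  have hκ0 : 0 < κ := div_pos (mul_pos hα0 eT2) (sub_pos.2 hTX)
  have hκe : κ * (X0 - XT) = α * ef c0 v w XT z2 := by
    rw [hκ]; field_simp [(sub_pos.2 hTX).ne']
  -- partial derivatives of `f = α e + κ F + G`
  have hdY : 0 < 1 - α * w := by
    have h1 : (1 - α * w) * ef c0 v w X0 (ψ X0) = ef c0 v w X0 z2 := by
      have : ef c0 v w X0 z2 = ef c0 v w X0 (ψ X0) - w * (z2 - ψ X0) := by unfold ef; ring
      rw [this, ← hαe]; ring
    by_contra hn
    push Not at hn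
    have := mul_nonpos_of_nonpos_of_nonneg hn e00.le
    linarith
  have hdX : 0 < κ - α * v := by
    have h1 : (κ - α * v) * (X0 - XT) = α * ef c0 v w X0 z2 := by
      have : ef c0 v w XT z2 = ef c0 v w X0 z2 + v * (X0 - XT) := by unfold ef; ring
      have h2 : (κ - α * v) * (X0 - XT) = κ * (X0 - XT) - α * v * (X0 - XT) := by ring
      rw [h2, hκe, this]; ring
    by_contra hn
    push Not at hn
    have := mul_nonpos_of_nonpos_of_nonneg hn (sub_pos.2 hTX).le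
    have := mul_pos hα0 e02
    linarith
  refine ⟨κ, hκ0.le, ?_⟩
  have hf1 : ∀ X Y, α * ef c0 v w X Y + κ * fF X0 X Y + fG z2 X Y =
      (κ - α * v) * (X - X0) + (1 - α * w) * (Y - ψ X0) := by
    intro X Y
    have h1 : ef c0 v w X Y = ef c0 v w X0 (ψ X0) - v * (X - X0) - w * (Y - ψ X0) := by
      unfold ef; ring
    rw [h1]
    unfold fF fG
    linear_combination hαe
  have hf2 : ∀ X Y, α * ef c0 v w X Y + κ * fF X0 X Y + fG z2 X Y =
      (κ - α * v) * (X - XT) + (1 - α * w) * (Y - z2) := by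
    intro X Y
    have h1 : ef c0 v w X Y = ef c0 v w XT z2 - v * (X - XT) - w * (Y - z2) := by
      unfold ef; ring
    rw [h1]
    unfold fF fG
    linear_combination -hκe
  have key := H.pos (f := fun X Y => α * ef c0 v w X Y + κ * fF X0 X Y + fG z2 X Y)
    (by unfold ef fF fG; fun_prop) ?_ ?_ ?_
  · rw [H.comb α κ cont_e cont_F cont_G, I0] at key
    linarith
  · intro X hX
    have e1 := H.eΦ X ⟨hX.1, hX.2.trans H.hc⟩
    have e2 := H.ez X hX
    rcases le_total X XT with h | h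
    · have h2 := hlow X hX h
      refine sl_nonneg' h2 ?_ ?_ e1 e2
      · rw [hf2]
        have a1 := mul_nonpos_of_nonneg_of_nonpos hdX.le (sub_nonpos.2 h)
        have a2 := mul_nonpos_of_nonneg_of_nonpos hdY.le (sub_nonpos.2 h2)
        linarith
      · rw [hf2]
        have a1 := mul_nonpos_of_nonneg_of_nonpos hdX.le (sub_nonpos.2 h)
        linarith
    · have h2 := hup X hX h
      refine sl_nonneg h2 ?_ ?_ e1 e2
      · rw [hf2]
        have a1 := mul_nonneg hdX.le (sub_nonneg.2 h)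
        have a2 := mul_nonneg hdY.le (sub_nonneg.2 h2)
        linarith
      · rw [hf2]
        have a1 := mul_nonneg hdX.le (sub_nonneg.2 h)
        linarith
  · intro X hX
    have e1 := H.eΦ X ⟨H.hN.le.trans hX.1, hX.2⟩
    have e2 := H.eψ X hX
    have h3 : ψ X0 ≤ ψ X := H.ψm mX0' hX hX.1
    have a1 := mul_nonneg hdX.le (sub_nonneg.2 hX.1)
    have a2 := mul_nonneg hdY.le (sub_nonneg.2 h3)
    have a3 := mul_nonneg hdY.le (sub_nonneg.2 (h3.trans (hA X hX)))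
    refine sl_nonneg (hA X hX) ?_ ?_ e1 e2
    · rw [hf1]; linarith
    · rw [hf1]; linarith
  · have e1 := H.eΦ X0 mX0
    refine ⟨X0, ⟨H.hN.le, le_rfl⟩, sl_pos h0 ?_ ?_ e1 e02⟩
    · rw [hf2]
      have a1 := mul_pos hdX (sub_pos.2 hTX)
      have a2 := mul_pos hdY (sub_pos.2 h0)
      linarith
    · rw [hf2]
      have a1 := mul_pos hdX (sub_pos.2 hTX)
      linarith

/-- Case A (a): no chain point beyond `(X0, z2)` -/
lemma Hat.caseA (H : Hat c0 v w XN X0 c z2 Φ ψ) (hA : ∀ X ∈ Icc X0 c, ψ X ≤ Φ X)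
    (hb : ∀ X ∈ Icc X0 c, Φ X ≤ z2) : IF c0 v w XN X0 c z2 Φ ψ (fG z2) ≤ 0 := by
  unfold IF
  have a1 : ∫ X in XN..X0, (X - X0) * sl c0 v w (fG z2) X z2 (Φ X) ≤ 0 := by
    have := intervalIntegral.integral_nonneg H.hN.le
      (f := fun X => -((X - X0) * sl c0 v w (fG z2) X z2 (Φ X))) (μ := volume) ?_
    · rw [intervalIntegral.integral_neg] at this; linarith
    · intro X hX
      have e1 := H.eΦ X ⟨hX.1, hX.2.trans H.hc⟩
      have e2 := H.ez X hX
      have h1 : 0 ≤ sl c0 v w (fG z2) X z2 (Φ X) := by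
        rcases le_total z2 (Φ X) with h | h
        · exact sl_nonneg h (by unfold fG; linarith) (by unfold fG; linarith) e1 e2
        · exact sl_nonneg' h (by unfold fG; linarith) (by unfold fG; linarith) e1 e2
      have h2 := mul_nonneg (sub_nonneg.2 hX.2) h1
      linarith
  have a2 : ∫ X in X0..c, (X - X0) * sl c0 v w (fG z2) X (ψ X) (Φ X) ≤ 0 := by
    have := intervalIntegral.integral_nonneg H.hc
      (f := fun X => -((X - X0) * sl c0 v w (fG z2) X (ψ X) (Φ X))) (μ := volume) ?_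
    · rw [intervalIntegral.integral_neg] at this; linarith
    · intro X hX
      have e1 := H.eΦ X ⟨H.hN.le.trans hX.1, hX.2⟩
      have e2 := H.eψ X hX
      have h1 : 0 ≤ -sl c0 v w (fG z2) X (ψ X) (Φ X) := by
        have h3 := sl_nonneg (c0 := c0) (v := v) (w := w) (f := fun X Y => -fG z2 X Y) (X := X)
          (hA X hX) (by unfold fG; linarith [hb X hX])
          (by unfold fG; linarith [hb X hX, hA X hX]) e1 e2
        have h4 : sl c0 v w (fun X Y => -fG z2 X Y) X (ψ X) (Φ X) =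
            -sl c0 v w (fG z2) X (ψ X) (Φ X) := by unfold sl; ring
        rwa [h4] at h3
      have h2 := mul_nonneg (sub_nonneg.2 hX.1) h1
      linarith
  linarith

/-- **The comparison theorem in the hat plane** -/
theorem Hat.main (H : Hat c0 v w XN X0 c z2 Φ ψ)
    (I0 : II c0 v w XN X0 c z2 Φ ψ (ef c0 v w) = 0)
    (hyp : (II c0 v w XN X0 c z2 Φ ψ (fF X0) ≤ 0 ∧ II c0 v w XN X0 c z2 Φ ψ (fG z2) ≤ 0) ∨
      z2 ≤ Φ XN) : IF c0 v w XN X0 c z2 Φ ψ (fG z2) ≤ 0 := by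
  have mN : XN ∈ Icc XN c := ⟨le_rfl, H.hN.le.trans H.hc⟩
  have mc : c ∈ Icc XN c := ⟨H.hN.le.trans H.hc, le_rfl⟩
  have mc' : c ∈ Icc X0 c := ⟨H.hc, le_rfl⟩
  have mX0' : X0 ∈ Icc X0 c := ⟨le_rfl, H.hc⟩
  rcases lt_or_ge (Φ X0) (ψ X0) with h0 | h0
  · exfalso
    rcases hyp with h | h
    · have := H.case0 h0 I0
      linarith [h.1]
    · have h1 := conc3 H.Φv mN mc H.hN.le H.hc
      have h2 := H.ψm mX0' mc' H.hc
      have h3 := H.top
      have h4 := H.hz
      have h5 := mul_nonneg (sub_nonneg.2 H.hc) (by linarith : 0 ≤ Φ XN - ψ X0)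
      have h6 := mul_nonneg (sub_nonneg.2 H.hN.le) (by linarith : 0 ≤ Φ c - ψ X0)
      have h7 : 0 < (c - XN) * (ψ X0 - Φ X0) := mul_pos (by linarith [H.hN, H.hc]) (by linarith)
      linarith
  · have hgv : ConcaveOn ℝ (Icc X0 c) (fun X => Φ X - ψ X) :=
      (H.Φv.subset (Icc_subset_Icc_left H.hN.le) (convex_Icc X0 c)).sub H.ψv
    have hA : ∀ X ∈ Icc X0 c, ψ X ≤ Φ X := by
      intro X hX
      have h1 := conc3 hgv mX0' mc' hX.1 hX.2
      rcases eq_or_lt_of_le H.hc with h | h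
      · have : X = X0 := le_antisymm (by rw [h]; exact hX.2) hX.1
        rw [this]; exact h0
      · by_contra hn
        push Not at hn
        have h2 := H.top
        have h5 := mul_nonneg (sub_nonneg.2 hX.2) (sub_nonneg.2 h0)
        have h6 := mul_nonneg (sub_nonneg.2 hX.1) (sub_nonneg.2 h2)
        have h7 := mul_pos (sub_pos.2 h) (sub_pos.2 hn)
        linarith
    by_cases hb : ∀ X ∈ Icc X0 c, Φ X ≤ z2
    · exact H.caseA hA hb
    · exfalso
      push Not at hb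
      obtain ⟨X1, hX1, hb⟩ := hb
      rcases le_or_gt z2 (Φ XN) with hN | hN
      · have := H.caseD hA hX1 hb hN
        linarith
      · rcases hyp with hyp | h
        · rcases le_or_gt (Φ X0) z2 with h1 | h1
          · have := H.caseB hA hX1 hb h1 hN
            linarith [hyp.1]
          · obtain ⟨κ, hκ, h2⟩ := H.caseC hA h1 hN I0
            have := mul_nonpos_of_nonneg_of_nonpos hκ hyp.1
            linarith [hyp.2]
        · linarith

end main

end Pool.Agent.Work.MP_b5407d_pos_h47
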