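import Pool.Agent.Work.MP_b5407d_pos_helper47.Graph
import Pool.Agent.Work.MP_b5407d_lbm_helper20.PV

/-! # Path identities in the hat plane (helper47) -/

set_option autoImplicit false

open MeasureTheory Set Filter Topology

namespace Pool.Agent.Work.MP_b5407d_pos_h47

open Pool.LBM Pool.Agent.Work.MP_b5407d_pos_h9.FV

lemma plAC (a : ℕ → ℝ) : AC (pl a) (dpl a) := by
  refine ⟨Pool.LBM.PV.pl_cont a, fun s hs => Pool.LBM.PV.pl_deriv a hs,
    ⟨Pool.LBM.PV.dpl_int a, fun s hs => ?_⟩⟩
  have h : ContinuousAt (fun _ : ℝ => dpl a s) s := continuousAt_const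
  refine h.congr ?_
  filter_upwards [Pool.LBM.PV.floor_ev (t := s) hs] with u hu
  simp only [Pool.LBM.dpl, hu]

lemma pl_nat (a : ℕ → ℝ) (n : ℕ) : pl a (n : ℝ) = a n := by
  simp [pl]

lemma mE_d (v x : ℝ) : HasDerivAt (mE v) (Real.exp (-(v * x))) x := by
  have hc : Continuous (fun s : ℝ => Real.exp (-(v * s))) := by fun_prop
  exact intervalIntegral.integral_hasDerivAt_right (hc.intervalIntegrable _ _)
    hc.aestronglyMeasurable.stronglyMeasurableAtFilter hc.continuousAt

lemma mE_c (v : ℝ) : Continuous (mE v) :=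
  continuous_iff_continuousAt.2 fun x => (mE_d v x).continuousAt

lemma mE_0 (v : ℝ) : mE v 0 = 0 := by simp [mE]

lemma mE_r (v x : ℝ) : v * mE v x = 1 - Real.exp (-(v * x)) := by
  have h : ∀ s ∈ uIcc 0 x, HasDerivAt (fun s => -Real.exp (-(v * s)))
      (v * Real.exp (-(v * s))) s := by
    intro s _
    have h1 : HasDerivAt (fun s => -(v * s)) (-(v * 1)) s := ((hasDerivAt_id s).const_mul v).neg
    exact h1.exp.neg.congr_deriv (by ring)
  have hc : Continuous (fun s : ℝ => v * Real.exp (-(v * s))) := by fun_prop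
  have h2 := intervalIntegral.integral_eq_sub_of_hasDerivAt h (hc.intervalIntegrable _ _)
  rw [intervalIntegral.integral_const_mul] at h2
  unfold mE
  rw [h2]
  simp
  ring

lemma mE_mono (v : ℝ) : StrictMono (mE v) := by
  refine strictMono_of_deriv_pos fun x => ?_
  rw [(mE_d v x).deriv]
  exact Real.exp_pos _

section path
variable (v w : ℝ) (a b : ℕ → ℝ)

/-- hat ordinate -/
noncomputable def pY (m : ℕ) (t : ℝ) : ℝ := pq v w a b t + v * (pL v w a b t + pJ v w a b m)

variable {v w a b}

lemma peAC : AC (pe v w a b) (fun s => -(v * dpl a s + w * dpl b s) * pe v w a b s) := by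
  have h := ((((plAC a).smul v).neg.sub ((plAC b).smul w))).comp (p := Real.exp) (p' := Real.exp)
    Real.hasDerivAt_exp Real.continuous_exp
  exact h.congr fun s => by simp only [pe]; ring

lemma pe_pos (t : ℝ) : 0 < pe v w a b t := Real.exp_pos _

lemma peiAC : AC (fun t => (pe v w a b t)⁻¹)
    (fun s => (v * dpl a s + w * dpl b s) * (pe v w a b s)⁻¹) := by
  have h := ((((plAC a).smul v).add ((plAC b).smul w))).comp (p := Real.exp) (p' := Real.exp)
    Real.hasDerivAt_exp Real.continuous_exp
  have he : ∀ s, (pe v w a b s)⁻¹ = Real.exp (v * pl a s + w * pl b s) := fun s => by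
    rw [pe, ← Real.exp_neg]; congr 1; ring
  refine (h.congrf fun s => (he s).symm).congr fun s => ?_
  rw [he]; ring

lemma mvAC (v : ℝ) (a : ℕ → ℝ) : AC (fun t => mE v (pl a t))
    (fun t => Real.exp (-(v * pl a t)) * dpl a t) :=
  (plAC a).comp (mE_d v) (by fun_prop)

lemma pe_split (t : ℝ) : pe v w a b t = Real.exp (-(v * pl a t)) * Real.exp (-(w * pl b t)) := by
  rw [pe, ← Real.exp_add]; congr 1

lemma qAC : AC (pq v w a b) (fun t => -v * dpl a t * pq v w a b t + pe v w a b t * dpl b t) := by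
  have h1 := ((plAC a).smul v).neg.comp (p := Real.exp) (p' := Real.exp)
    Real.hasDerivAt_exp Real.continuous_exp
  have h := h1.mul (mvAC w b)
  refine h.congr fun s => ?_
  rw [pe_split, pq]; ring

lemma XAC : AC (pX v w a b) (fun t => pe v w a b t * dpl a t) :=
  (Rg.cmul peAC.cont (plAC a).rg).prim 0

lemma LAC : AC (pL v w a b) (fun t => pq v w a b t * dpl a t) :=
  (Rg.cmul qAC.cont (plAC a).rg).prim 0

lemma YAC (m : ℕ) : AC (pY v w a b m) (fun t => pe v w a b t * dpl b t) := by
  have h := (qAC (v := v) (w := w) (a := a) (b := b)).add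
    (((LAC (v := v) (w := w) (a := a) (b := b)).add (AC.const (pJ v w a b m))).smul v)
  exact h.congr fun s => by ring

lemma X_rel (h0 : a 0 = 0) (t : ℝ) : pX v w a b t = mE v (pl a t) - w * pL v w a b t := by
  have h := ((XAC (v := v) (w := w) (a := a) (b := b)).sub ((mvAC v a).sub
    ((LAC (v := v) (w := w) (a := a) (b := b)).smul w))).congr
    (g' := fun _ => 0) (fun s => by
      have h1 := mE_r w (pl b s)
      rw [pe_split, pq]
      linear_combination (Real.exp (-(v * pl a s)) * dpl a s) * h1)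
  have h2 := h.eq 0 t
  simp only [intervalIntegral.integral_zero] at h2
  have h3 : pX v w a b 0 = 0 := by simp [pX]
  have h4 : pL v w a b 0 = 0 := by simp [pL]
  have h5 : pl a 0 = 0 := by have := pl_nat a 0; simpa [h0] using this
  rw [h3, h4, h5, mE_0] at h2
  linarith

lemma e_rel (h0 : a 0 = 0) (m : ℕ) (t : ℝ) :
    pe v w a b t = ef (1 + v * w * pJ v w a b m) v w (pX v w a b t) (pY v w a b m t) := by
  have h1 := mE_r w (pl b t)
  have h2 := mE_r v (pl a t)
  unfold ef
  rw [X_rel h0, pY, pe_split, pq]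
  linear_combination h2 + Real.exp (-(v * pl a t)) * h1


/-- integrals of functions of the abscissa along the path -/
lemma int_x {m : ℕ} (hm : a m = 0) {φ : ℝ → ℝ} (hφ : Continuous φ) :
    ∫ t in (1 : ℝ)..m, φ (pl a t) * dpl a t = -∫ s in (0 : ℝ)..a 1, φ s := by
  have hG : ∀ u, HasDerivAt (fun u => ∫ z in (0 : ℝ)..u, φ z) (φ u) u := fun u =>
    intervalIntegral.integral_hasDerivAt_right (hφ.intervalIntegrable _ _)
      hφ.aestronglyMeasurable.stronglyMeasurableAtFilter hφ.continuousAt
  have h := ((plAC a).comp hG hφ).eq 1 m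
  have h1 : pl a 1 = a 1 := by have := pl_nat a 1; simpa using this
  rw [h, pl_nat, hm, h1]
  simp

lemma int_b0 {f : ℝ → ℝ} (hb : b 1 = b 0) (m : ℕ)
    (hf : ∀ s t, IntervalIntegrable (fun t => f t * dpl b t) volume s t) :
    ∫ t in (0 : ℝ)..m, f t * dpl b t = ∫ t in (1 : ℝ)..m, f t * dpl b t := by
  rw [← intervalIntegral.integral_add_adjacent_intervals (hf 0 1) (hf 1 m)]
  have : ∫ t in (0 : ℝ)..1, f t * dpl b t = 0 := by
    rw [intervalIntegral.integral_congr_ae (g := fun _ => (0:ℝ))]
    · simp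
    · have hne : ∀ᵐ u : ℝ, u ≠ 1 := by rw [ae_iff]; simp
      filter_upwards [hne] with t ht hI
      rw [uIoc_of_le zero_le_one] at hI
      have h1 : ⌊t⌋₊ = 0 := by
        rw [Nat.floor_eq_zero]
        exact lt_of_le_of_ne hI.2 ht
      simp [dpl, h1, hb]
  rw [this]; ring

/-- `w (P - X0 D)` -/
lemma P_id {m : ℕ} (hm : a m = 0) (hb0 : b 0 = 0) (hb : b 1 = 0) :
    w * (pP v w a b m - pX v w a b 1 * pd v w a b m) =
      -(∫ t in (1 : ℝ)..m, (pX v w a b t - pX v w a b 1) * (pe v w a b t)⁻¹ * dpl a t) +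
        ∫ s in (0 : ℝ)..a 1, mE v s := by
  set X0 := pX v w a b 1 with hX0
  have hc : Continuous (fun t => (pX v w a b t - X0) * (mE v (pl a t) * (pe v w a b t)⁻¹)) :=
    (XAC.cont.sub continuous_const).mul ((mvAC v a).cont.mul peiAC.cont)
  have hi : ∀ s t, IntervalIntegrable (fun t => (pX v w a b t - X0) *
      (mE v (pl a t) * (pe v w a b t)⁻¹) * dpl b t) volume s t :=
    fun s t => (Rg.cmul hc (plAC b).rg).int s t
  have e1 : pP v w a b m - X0 * pd v w a b m = ∫ t in (1 : ℝ)..m, (pX v w a b t - X0) *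
      (mE v (pl a t) * (pe v w a b t)⁻¹) * dpl b t := by
    rw [← int_b0 (by rw [hb, hb0]) m hi]
    unfold pP pd
    rw [← intervalIntegral.integral_const_mul, ← intervalIntegral.integral_sub]
    · refine intervalIntegral.integral_congr fun t _ => ?_
      simp only [div_eq_mul_inv]; ring
    · have : Continuous (fun t => pX v w a b t * mE v (pl a t) / pe v w a b t) := by
        refine (XAC.cont.mul (mvAC v a).cont).div peAC.cont fun t => (pe_pos t).ne'
      exact (Rg.cmul this (plAC b).rg).int _ _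
    · have : Continuous (fun t => mE v (pl a t) / pe v w a b t) :=
        (mvAC v a).cont.div peAC.cont fun t => (pe_pos t).ne'
      exact ((Rg.cmul this (plAC b).rg).int _ _).const_mul _
  have h := ((((XAC (v := v) (w := w) (a := a) (b := b)).sub (AC.const X0)).mul
    ((mvAC v a).mul (peiAC (v := v) (w := w) (a := a) (b := b))))).congr
    (g' := fun t => (mE v (pl a t) * dpl a t +
      (pX v w a b t - X0) * (pe v w a b t)⁻¹ * dpl a t) +
      w * ((pX v w a b t - X0) * (mE v (pl a t) * (pe v w a b t)⁻¹) * dpl b t)) (fun t => by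
        have h1 := mE_r v (pl a t)
        have h2 : pe v w a b t * (pe v w a b t)⁻¹ = 1 := mul_inv_cancel₀ (pe_pos t).ne'
        linear_combination (mE v (pl a t) * dpl a t) * h2 +
          ((pX v w a b t - X0) * dpl a t * (pe v w a b t)⁻¹) * h1)
  have h3 := h.eq 1 m
  have i1 : IntervalIntegrable (fun t => mE v (pl a t) * dpl a t) volume 1 m :=
    (Rg.cmul (mvAC v a).cont (plAC a).rg).int _ _
  have i2 : IntervalIntegrable (fun t => (pX v w a b t - X0) * (pe v w a b t)⁻¹ * dpl a t)
      volume 1 m := (Rg.cmul ((XAC.cont.sub continuous_const).mul peiAC.cont) (plAC a).rg).int _ _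
  rw [intervalIntegral.integral_add (i1.add i2) ((hi 1 m).const_mul w),
    intervalIntegral.integral_add i1 i2, intervalIntegral.integral_const_mul,
    int_x hm (mE_c v), ← e1] at h3
  have h4 : pl a m = 0 := by rw [pl_nat, hm]
  rw [h4, mE_0, ← hX0] at h3
  linarith

/-- the shifted functional `R - z2 m_v` -/
noncomputable def pB (v w : ℝ) (a b : ℕ → ℝ) (m : ℕ) (z2 t : ℝ) : ℝ :=
  pL v w a b t + pJ v w a b m - z2 * mE v (pl a t)

lemma BAC (m : ℕ) (z2 : ℝ) : AC (pB v w a b m z2)
    (fun t => (pq v w a b t - z2 * Real.exp (-(v * pl a t))) * dpl a t) := by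
  have h := ((LAC (v := v) (w := w) (a := a) (b := b)).add (AC.const (pJ v w a b m))).sub
    ((mvAC v a).smul z2)
  exact h.congr fun s => by ring

lemma pR_eq (hb : b 1 = b 0) (m : ℕ) (f : ℝ) (t : ℝ) :
    pR v w a b m 0 t * f * dpl b t = (pL v w a b t + pJ v w a b m) * f * dpl b t := by
  unfold pR
  by_cases h : (1 : ℝ) ≤ t
  · have : ((0 : ℕ) : ℝ) + 1 ≤ t := by simpa using h
    rw [if_pos this]
  · have h1 : ⌊t⌋₊ = 0 := by
      rw [Nat.floor_eq_zero]; linarith
    simp [dpl, h1, hb]

/-- `w (N - z2 D)` -/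
lemma N_id {m : ℕ} (hm : a m = 0) (hb0 : b 0 = 0) (hb : b 1 = 0) {z2 : ℝ}
    (hz : z2 * mE v (a 1) = pJ v w a b m) :
    w * (pN v w a b m 0 - z2 * pd v w a b m) =
      -(∫ t in (1 : ℝ)..m, (pY v w a b m t - z2) * (pe v w a b t)⁻¹ * dpl a t) := by
  have hb' : b 1 = b 0 := by rw [hb, hb0]
  have hc : Continuous (fun t => pB v w a b m z2 t * (pe v w a b t)⁻¹) :=
    (BAC m z2).cont.mul peiAC.cont
  have hi : ∀ s t, IntervalIntegrable (fun t => pB v w a b m z2 t * (pe v w a b t)⁻¹ * dpl b t)
      volume s t := fun s t => (Rg.cmul hc (plAC b).rg).int s t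
  have e1 : pN v w a b m 0 - z2 * pd v w a b m = ∫ t in (1 : ℝ)..m, pB v w a b m z2 t *
      (pe v w a b t)⁻¹ * dpl b t := by
    rw [← int_b0 hb' m hi]
    have e2 : pN v w a b m 0 = ∫ t in (0 : ℝ)..m, (pL v w a b t + pJ v w a b m) *
        (pe v w a b t)⁻¹ * dpl b t := by
      unfold pN
      refine intervalIntegral.integral_congr fun t _ => ?_
      simp only [div_eq_mul_inv]
      exact pR_eq hb' m _ t
    rw [e2]
    unfold pd
    rw [← intervalIntegral.integral_const_mul, ← intervalIntegral.integral_sub]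
    · refine intervalIntegral.integral_congr fun t _ => ?_
      simp only [div_eq_mul_inv, pB]; ring
    · exact (Rg.cmul ((LAC.cont.add continuous_const).mul peiAC.cont) (plAC b).rg).int _ _
    · have : Continuous (fun t => mE v (pl a t) / pe v w a b t) :=
        (mvAC v a).cont.div peAC.cont fun t => (pe_pos t).ne'
      exact ((Rg.cmul this (plAC b).rg).int _ _).const_mul _
  have h := ((BAC (v := v) (w := w) (a := a) (b := b) m z2).mul
    (peiAC (v := v) (w := w) (a := a) (b := b))).congr
    (g' := fun t => (pY v w a b m t - z2) * (pe v w a b t)⁻¹ * dpl a t +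
      w * (pB v w a b m z2 t * (pe v w a b t)⁻¹ * dpl b t)) (fun t => by
        have h1 := mE_r v (pl a t)
        unfold pB pY
        linear_combination (-z2 * dpl a t * (pe v w a b t)⁻¹) * h1)
  have h3 := h.eq 1 m
  have i2 : IntervalIntegrable (fun t => (pY v w a b m t - z2) * (pe v w a b t)⁻¹ * dpl a t)
      volume 1 m :=
    (Rg.cmul (((YAC m).cont.sub continuous_const).mul peiAC.cont) (plAC a).rg).int _ _
  rw [intervalIntegral.integral_add i2 ((hi 1 m).const_mul w),
    intervalIntegral.integral_const_mul, ← e1] at h3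
  have h4 : pl a m = 0 := by rw [pl_nat, hm]
  have h5 : pB v w a b m z2 m = 0 := by
    simp only [pB, h4, mE_0, pJ]; ring
  have h6 : pB v w a b m z2 1 = 0 := by
    have g1 : pl a 1 = a 1 := by have := pl_nat a 1; simpa using this
    have g2 : pL v w a b 1 = 0 := by
      unfold pL
      rw [intervalIntegral.integral_congr_ae (g := fun _ => (0:ℝ))]
      · simp
      · refine Filter.Eventually.of_forall fun t ht => ?_
        rw [uIoc_of_le zero_le_one] at ht
        have : pl b t = 0 := by
          rw [Pool.LBM.PV.pl_Icc b 0 (s := t) ⟨by simpa using ht.1.le, by simpa using ht.2⟩]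
          simp [hb0, hb]
        simp [pq, this, mE_0]
    simp only [pB, g1, g2]; linarith
  rw [h5, h6] at h3
  linarith

lemma L_flat (hb0 : b 0 = 0) (hb : b 1 = 0) {t : ℝ} (h0 : 0 ≤ t) (h1 : t ≤ 1) :
    pL v w a b t = 0 := by
  unfold pL
  rw [intervalIntegral.integral_congr_ae (g := fun _ => (0:ℝ))]
  · simp
  · refine Filter.Eventually.of_forall fun s hs => ?_
    rw [uIoc_of_le h0] at hs
    have : pl b s = 0 := by
      rw [Pool.LBM.PV.pl_Icc b 0 (s := s) ⟨by simpa using hs.1.le, by simpa using hs.2.trans h1⟩]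
      simp [hb0, hb]
    simp [pq, this, mE_0]

/-- `w Z` -/
lemma Z_id {m : ℕ} (hm : a m = 0) (hb0 : b 0 = 0) (hb : b 1 = 0) (z2 : ℝ) :
    w * (pM v w a b m 0 - pX v w a b 1 * pN v w a b m 0 - z2 * pP v w a b m +
      pX v w a b 1 * z2 * pd v w a b m) =
      -(∫ t in (1 : ℝ)..m, pB v w a b m z2 t * dpl a t) -
      (∫ t in (1 : ℝ)..m, (pX v w a b t - pX v w a b 1) * (pY v w a b m t - z2) *
        (pe v w a b t)⁻¹ * dpl a t) := by
  set X0 := pX v w a b 1 with hX0
  have hb' : b 1 = b 0 := by rw [hb, hb0]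
  have hFc : Continuous (fun t => pX v w a b t - X0) := XAC.cont.sub continuous_const
  have hc : Continuous (fun t => (pX v w a b t - X0) * (pB v w a b m z2 t * (pe v w a b t)⁻¹)) :=
    hFc.mul ((BAC m z2).cont.mul peiAC.cont)
  have hi : ∀ s t, IntervalIntegrable (fun t => (pX v w a b t - X0) *
      (pB v w a b m z2 t * (pe v w a b t)⁻¹) * dpl b t)
      volume s t := fun s t => (Rg.cmul hc (plAC b).rg).int s t
  have e1 : pM v w a b m 0 - X0 * pN v w a b m 0 - z2 * pP v w a b m + X0 * z2 * pd v w a b m =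
      ∫ t in (1 : ℝ)..m, (pX v w a b t - X0) *
      (pB v w a b m z2 t * (pe v w a b t)⁻¹) * dpl b t := by
    rw [← int_b0 hb' m hi]
    have e2 : pN v w a b m 0 = ∫ t in (0 : ℝ)..m, (pL v w a b t + pJ v w a b m) *
        (pe v w a b t)⁻¹ * dpl b t := by
      unfold pN
      refine intervalIntegral.integral_congr fun t _ => ?_
      simp only [div_eq_mul_inv]
      exact pR_eq hb' m _ t
    have e3 : pM v w a b m 0 = ∫ t in (0 : ℝ)..m, pX v w a b t *
        (pL v w a b t + pJ v w a b m) * (pe v w a b t)⁻¹ * dpl b t := by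
      unfold pM
      refine intervalIntegral.integral_congr fun t _ => ?_
      simp only [div_eq_mul_inv]
      have := pR_eq (v := v) (w := w) (a := a) hb' m (pX v w a b t * (pe v w a b t)⁻¹) t
      linear_combination this
    have e4 : pP v w a b m = ∫ t in (0 : ℝ)..m, pX v w a b t *
        (mE v (pl a t) * (pe v w a b t)⁻¹) * dpl b t := by
      unfold pP
      refine intervalIntegral.integral_congr fun t _ => ?_
      simp only [div_eq_mul_inv]; ring
    have e5 : pd v w a b m = ∫ t in (0 : ℝ)..m,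
        (mE v (pl a t) * (pe v w a b t)⁻¹) * dpl b t := by
      unfold pd
      refine intervalIntegral.integral_congr fun t _ => ?_
      simp only [div_eq_mul_inv]
    have j2 : IntervalIntegrable (fun t => (pL v w a b t + pJ v w a b m) *
        (pe v w a b t)⁻¹ * dpl b t) volume 0 m :=
      (Rg.cmul ((LAC.cont.add continuous_const).mul peiAC.cont) (plAC b).rg).int _ _
    have j3 : IntervalIntegrable (fun t => pX v w a b t *
        (pL v w a b t + pJ v w a b m) * (pe v w a b t)⁻¹ * dpl b t) volume 0 m :=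
      (Rg.cmul ((XAC.cont.mul (LAC.cont.add continuous_const)).mul peiAC.cont)
        (plAC b).rg).int _ _
    have j4 : IntervalIntegrable (fun t => pX v w a b t *
        (mE v (pl a t) * (pe v w a b t)⁻¹) * dpl b t) volume 0 m :=
      (Rg.cmul (XAC.cont.mul ((mvAC v a).cont.mul peiAC.cont)) (plAC b).rg).int _ _
    have j5 : IntervalIntegrable (fun t => (mE v (pl a t) * (pe v w a b t)⁻¹) * dpl b t)
        volume 0 m := (Rg.cmul ((mvAC v a).cont.mul peiAC.cont) (plAC b).rg).int _ _
    rw [e2, e3, e4, e5, ← intervalIntegral.integral_const_mul,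
      ← intervalIntegral.integral_const_mul, ← intervalIntegral.integral_const_mul,
      ← intervalIntegral.integral_sub j3 (j2.const_mul _),
      ← intervalIntegral.integral_sub (j3.sub (j2.const_mul _)) (j4.const_mul _),
      ← intervalIntegral.integral_add ((j3.sub (j2.const_mul _)).sub (j4.const_mul _))
        (j5.const_mul _)]
    refine intervalIntegral.integral_congr fun t _ => ?_
    simp only [pB]; ring
  have h := (((XAC (v := v) (w := w) (a := a) (b := b)).sub (AC.const X0)).mul
    ((BAC (v := v) (w := w) (a := a) (b := b) m z2).mul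
    (peiAC (v := v) (w := w) (a := a) (b := b)))).congr
    (g' := fun t => (pB v w a b m z2 t * dpl a t +
      (pX v w a b t - X0) * (pY v w a b m t - z2) * (pe v w a b t)⁻¹ * dpl a t) +
      w * ((pX v w a b t - X0) * (pB v w a b m z2 t * (pe v w a b t)⁻¹) * dpl b t)) (fun t => by
        have h1 := mE_r v (pl a t)
        have h2 : pe v w a b t * (pe v w a b t)⁻¹ = 1 := mul_inv_cancel₀ (pe_pos t).ne'
        unfold pB pY
        linear_combination ((pX v w a b t - X0) * (-z2 * dpl a t * (pe v w a b t)⁻¹)) * h1 +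
          ((pL v w a b t + pJ v w a b m - z2 * mE v (pl a t)) * dpl a t) * h2)
  have h3 := h.eq 1 m
  have i1 : IntervalIntegrable (fun t => pB v w a b m z2 t * dpl a t) volume 1 m :=
    (Rg.cmul (BAC m z2).cont (plAC a).rg).int _ _
  have i2 : IntervalIntegrable (fun t => (pX v w a b t - X0) * (pY v w a b m t - z2) *
      (pe v w a b t)⁻¹ * dpl a t) volume 1 m :=
    (Rg.cmul ((hFc.mul ((YAC m).cont.sub continuous_const)).mul peiAC.cont) (plAC a).rg).int _ _
  rw [intervalIntegral.integral_add (i1.add i2) ((hi 1 m).const_mul w),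
    intervalIntegral.integral_add i1 i2, intervalIntegral.integral_const_mul, ← e1] at h3
  have h4 : pl a m = 0 := by rw [pl_nat, hm]
  have h5 : pB v w a b m z2 m = 0 := by
    simp only [pB, h4, mE_0, pJ]; ring
  rw [h5, ← hX0] at h3
  linarith

end path

end Pool.Agent.Work.MP_b5407d_pos_h47
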