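import Pool.Agent.Work.MP_b5407d_pos_helper47.Ident

/-! # Continuity in the tilt, `r = 0` (helper47) -/

set_option autoImplicit false

open MeasureTheory Set Filter Topology

namespace Pool.Agent.Work.MP_b5407d_pos_h47

open Pool.LBM Pool.Agent.Work.MP_b5407d_pos_h9.FV

section
variable (v w : ℝ) (a b : ℕ → ℝ) (m : ℕ)

lemma lc_e : Continuous (fun p : ℝ × ℝ => pe (v + p.1) (w + p.1) a b p.2) := by
  have h1 := (plAC a).cont
  have h2 := (plAC b).cont
  unfold pe; fun_prop

lemma lc_ei : Continuous (fun p : ℝ × ℝ => (pe (v + p.1) (w + p.1) a b p.2)⁻¹) :=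
  (lc_e v w a b).inv₀ fun _ => (pe_pos _).ne'

lemma lc_mE : Continuous (fun p : ℝ × ℝ => mE (v + p.1) p.2) := by
  have := cont_prim (f := fun t u => Real.exp (-((v + t) * u))) (g := fun _ => 1)
    (by fun_prop) (Rg.of_cont continuous_const) 0
  simpa [mE] using this

lemma lc_m (c : ℕ → ℝ) : Continuous (fun p : ℝ × ℝ => mE (v + p.1) (pl c p.2)) := by
  have h1 := (plAC c).cont
  exact (lc_mE v).comp (continuous_fst.prodMk (h1.comp continuous_snd))

lemma lc_q : Continuous (fun p : ℝ × ℝ => pq (v + p.1) (w + p.1) a b p.2) := by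
  have h1 := (plAC a).cont
  have h2 := lc_m w b
  unfold pq; fun_prop

lemma lc_X : Continuous (fun p : ℝ × ℝ => pX (v + p.1) (w + p.1) a b p.2) :=
  cont_prim (f := fun t u => pe (v + t) (w + t) a b u) (lc_e v w a b) (plAC a).rg 0

lemma lc_L : Continuous (fun p : ℝ × ℝ => pL (v + p.1) (w + p.1) a b p.2) :=
  cont_prim (f := fun t u => pq (v + t) (w + t) a b u) (lc_q v w a b) (plAC a).rg 0

lemma lc_J : Continuous (fun t : ℝ => pJ (v + t) (w + t) a b m) := by
  have := (lc_L v w a b).comp (continuous_id.prodMk (continuous_const (y := (m : ℝ))))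
  unfold pJ
  exact this.neg

lemma lc_int {f : ℝ → ℝ → ℝ} (hf : Continuous (fun p : ℝ × ℝ => f p.1 p.2)) :
    Continuous (fun t : ℝ => ∫ u in (0 : ℝ)..m, f t u * dpl b u) :=
  (cont_prim (f := f) hf (plAC b).rg 0).comp
    (continuous_id.prodMk (continuous_const (y := (m : ℝ))))

lemma lc_d : Continuous (fun t : ℝ => pd (v + t) (w + t) a b m) := by
  have h1 := lc_m v a
  have h2 := lc_ei v w a b
  have := lc_int b m (f := fun t u => mE (v + t) (pl a u) * (pe (v + t) (w + t) a b u)⁻¹)
    (by fun_prop)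
  simpa only [pd, div_eq_mul_inv] using this

lemma lc_P : Continuous (fun t : ℝ => pP (v + t) (w + t) a b m) := by
  have h1 := lc_m v a
  have h2 := lc_ei v w a b
  have h3 := lc_X v w a b
  have := lc_int b m (f := fun t u => pX (v + t) (w + t) a b u * mE (v + t) (pl a u) *
    (pe (v + t) (w + t) a b u)⁻¹) (by fun_prop)
  simpa only [pP, div_eq_mul_inv] using this

lemma lc_N (hb : b 1 = b 0) : Continuous (fun t : ℝ => pN (v + t) (w + t) a b m 0) := by
  have h2 := lc_ei v w a b
  have h3 := lc_L v w a b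
  have h4 : Continuous (fun p : ℝ × ℝ => pJ (v + p.1) (w + p.1) a b m) :=
    (lc_J v w a b m).comp continuous_fst
  have := lc_int b m (f := fun t u => (pL (v + t) (w + t) a b u + pJ (v + t) (w + t) a b m) *
    (pe (v + t) (w + t) a b u)⁻¹) (by fun_prop)
  refine this.congr fun t => ?_
  unfold pN
  refine intervalIntegral.integral_congr fun u _ => ?_
  simp only [div_eq_mul_inv]
  exact (pR_eq hb m _ u).symm

lemma lc_M (hb : b 1 = b 0) : Continuous (fun t : ℝ => pM (v + t) (w + t) a b m 0) := by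
  have h1 := lc_X v w a b
  have h2 := lc_ei v w a b
  have h3 := lc_L v w a b
  have h4 : Continuous (fun p : ℝ × ℝ => pJ (v + p.1) (w + p.1) a b m) :=
    (lc_J v w a b m).comp continuous_fst
  have := lc_int b m (f := fun t u => (pL (v + t) (w + t) a b u + pJ (v + t) (w + t) a b m) *
    (pX (v + t) (w + t) a b u * (pe (v + t) (w + t) a b u)⁻¹)) (by fun_prop)
  refine this.congr fun t => ?_
  unfold pM
  refine intervalIntegral.integral_congr fun u _ => ?_
  simp only [div_eq_mul_inv]
  have := pR_eq (v := v + t) (w := w + t) (a := a) hb m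
    (pX (v + t) (w + t) a b u * (pe (v + t) (w + t) a b u)⁻¹) u
  linear_combination -this

variable {a b m}

/-- closure in the tilt -/
theorem PI_all (hb : b 1 = b 0)
    (h : ∀ v w : ℝ, v ≠ 0 → w ≠ 0 →
      pd v w a b m * pM v w a b m 0 ≤ pP v w a b m * pN v w a b m 0) :
    pd v w a b m * pM v w a b m 0 ≤ pP v w a b m * pN v w a b m 0 := by
  set F : ℝ → ℝ := fun t => pP (v + t) (w + t) a b m * pN (v + t) (w + t) a b m 0 -
    pd (v + t) (w + t) a b m * pM (v + t) (w + t) a b m 0 with hF
  have hc : Continuous F := by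
    have h1 := lc_d v w a b m
    have h2 := lc_P v w a b m
    have h3 := lc_N v w a b m hb
    have h4 := lc_M v w a b m hb
    simp only [hF]; fun_prop
  have hev : ∀ᶠ t in 𝓝[>] (0 : ℝ), 0 ≤ F t := by
    have e1 : ∀ x : ℝ, ∀ᶠ t in 𝓝[>] (0 : ℝ), x + t ≠ 0 := by
      intro x
      rcases eq_or_ne x 0 with hx | hx
      · filter_upwards [self_mem_nhdsWithin] with t ht
        rw [hx, zero_add]; exact ne_of_gt ht
      · have : ∀ᶠ t in 𝓝 (0 : ℝ), x + t ≠ 0 := by
          have hc : ContinuousAt (fun t : ℝ => x + t) 0 := by fun_prop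
          exact hc.eventually_ne (by simpa using hx)
        exact this.filter_mono nhdsWithin_le_nhds
    filter_upwards [e1 v, e1 w] with t h1 h2
    have := h (v + t) (w + t) h1 h2
    simp only [hF]; linarith
  have hlim : Tendsto F (𝓝[>] (0 : ℝ)) (𝓝 (F 0)) := (hc.tendsto 0).mono_left nhdsWithin_le_nhds
  have := ge_of_tendsto hlim hev
  simp only [hF, add_zero] at this
  linarith

end

end Pool.Agent.Work.MP_b5407d_pos_h47
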