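import Pool.Agent.Work.MP_b5407d_pos_helper47.Asm
import Pool.Agent.Work.MP_b5407d_pos_helper13.Area

/-! # W1 and W3 (helper47) -/

set_option autoImplicit false

open MeasureTheory Set Filter Topology

namespace Pool.Agent.Work.MP_b5407d_pos_h47

open Pool.LBM Pool.Agent.Work.MP_b5407d_pos_h9.FV

section
variable {v w : ℝ} {a b : ℕ → ℝ} {m p q : ℕ} {T1 T2 : ℝ → ℝ}

lemma a1_pos (h : Std m 0 a b) : 0 < a 1 := by
  have := h.bot
  rw [h.a0] at this
  simpa using this

lemma X_1 (h : Std m 0 a b) : pX v w a b 1 = mE v (a 1) := by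
  have h1 : pl a 1 = a 1 := by have := pl_nat a 1; simpa using this
  rw [X_rel h.a0, L_flat h.br (by simpa using h.br1) zero_le_one le_rfl, h1]; ring

lemma X_m (h : Std m 0 a b) : pX v w a b m = w * pJ v w a b m := by
  rw [X_rel h.a0, pl_nat, h.am, mE_0, pJ]; ring

lemma Y_1 (h : Std m 0 a b) : pY v w a b m 1 = v * pJ v w a b m := by
  have h1 : pl b 1 = b 1 := by have := pl_nat b 1; simpa using this
  have h2 : b 1 = 0 := by simpa using h.br1
  rw [pY, L_flat h.br h2 zero_le_one le_rfl, pq, h1, h2, mE_0]; ring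

lemma Y_m (h : Std m 0 a b) : pY v w a b m m = mE w (b m) := by
  rw [pY, pq, pl_nat, pl_nat, h.am, pJ]; simp

lemma X0_pos (v : ℝ) (h : Std m 0 a b) : 0 < mE v (a 1) := by
  rw [← mE_0 v]; exact mE_mono v (a1_pos h)

/-- the hat chain -/
lemma hat_of (h : Std m 0 a b) (S : Spl m a b p q) (H : Hc v w a b m p q T1 T2)
    (hJ : 0 < pJ v w a b m) (hX : w * pJ v w a b m < mE v (a 1)) {z2 : ℝ}
    (hz : z2 * mE v (a 1) = pJ v w a b m) (hk : 0 < 1 - w * z2) :
    Hat (1 + v * w * pJ v w a b m) v w (w * pJ v w a b m) (mE v (a 1)) (pX v w a b p) z2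
      (fun u => pY v w a b m (T2 u)) (fun u => pY v w a b m (T1 u)) := by
  have hp : (1 : ℝ) ≤ p := by exact_mod_cast S.p1
  have hqm : (q : ℝ) ≤ m := Nat.cast_le.2 S.qm.le
  have hX1 := X_1 (v := v) (w := w) h
  have hXm := X_m (v := v) (w := w) h
  have hXpq := X_pq (v := v) (w := w) (b := b) S
  have hX0c : mE v (a 1) ≤ pX v w a b p := by
    rw [← hX1]; exact H.lo.sm.monotoneOn ⟨le_rfl, hp⟩ ⟨hp, le_rfl⟩ hp
  have e1 : ∀ u ∈ Icc (w * pJ v w a b m) (pX v w a b p), pX v w a b (T2 u) = u := by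
    intro u hu
    exact H.up.XT u ⟨by rw [hXm]; exact hu.1, by rw [hXpq]; exact hu.2⟩
  have e2 : ∀ u ∈ Icc (mE v (a 1)) (pX v w a b p), pX v w a b (T1 u) = u := by
    intro u hu
    exact H.lo.XT u ⟨by rw [hX1]; exact hu.1, hu.2⟩
  refine ⟨hX, hX0c, ((YAC m).cont.comp H.up.c).continuousOn, ?_,
    ((YAC m).cont.comp H.lo.c).continuousOn, ?_, ?_, ?_, fun X hX' => box_pos hz hk hX hX', ?_, ?_,
    ?_⟩
  · have := H.up.cv; rw [hXm, hXpq] at this; exact this
  · have := H.lo.cv; rw [hX1] at this; exact this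
  · intro x hx y hy hxy
    have h1 : T1 x ≤ T1 y := by
      rw [← H.lo.sm.le_iff_le (H.lo.m x) (H.lo.m y), e2 x hx, e2 y hy]; exact hxy
    exact Y_mono_lo h S (by linarith [(H.lo.m x).1]) h1 (H.lo.m y).2
  · have h1 : T1 (pX v w a b p) = p := H.lo.TX p ⟨hp, le_rfl⟩
    have h2 : T2 (pX v w a b p) = q := by
      rw [← hXpq]; exact H.up.TX q ⟨le_rfl, hqm⟩
    simp only [h1, h2]
    exact Y_pq S
  · intro u hu
    have h3 := e_rel (v := v) (w := w) (b := b) h.a0 m (T2 u)
    rw [e1 u hu] at h3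
    rw [← h3]; exact pe_pos _
  · intro u hu
    have h3 := e_rel (v := v) (w := w) (b := b) h.a0 m (T1 u)
    rw [e2 u hu] at h3
    rw [← h3]; exact pe_pos _
  · have h1 : T1 (mE v (a 1)) = 1 := by rw [← hX1]; exact H.lo.TX 1 ⟨le_rfl, hp⟩
    simp only [h1]
    rw [Y_1 h]
    have h2 := X0_pos v h
    have h3 := mE_r v (a 1)
    have h4 := Real.exp_pos (-(v * a 1))
    have h5 : 0 < (z2 - v * pJ v w a b m) * mE v (a 1) := by
      have : (z2 - v * pJ v w a b m) * mE v (a 1) =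
          pJ v w a b m * Real.exp (-(v * a 1)) := by
        linear_combination hz - pJ v w a b m * h3
      rw [this]; positivity
    by_contra hn
    push Not at hn
    have := mul_nonpos_of_nonpos_of_nonneg (sub_nonpos.2 hn) h2.le
    linarith

/-- general conversion of a hat functional -/
lemma conv_gen (h : Std m 0 a b) (S : Spl m a b p q) (H : Hc v w a b m p q T1 T2)
    (hX : w * pJ v w a b m < mE v (a 1)) {g : ℝ → ℝ} (hg : Continuous g) {A2 Sl Sr : ℝ → ℝ}
    (hA : ContinuousOn A2 (Icc (w * pJ v w a b m) (mE v (a 1))))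
    (hl : ∀ u ∈ Icc (w * pJ v w a b m) (mE v (a 1)), Sl u = g (T2 u) - A2 u)
    (hr : ∀ u ∈ Icc (mE v (a 1)) (pX v w a b p), Sr u = g (T2 u) - g (T1 u)) :
    (∫ u in (w * pJ v w a b m)..(mE v (a 1)), Sl u) + ∫ u in (mE v (a 1))..(pX v w a b p), Sr u =
      -(∫ t in (1 : ℝ)..m, g t * (pe v w a b t * dpl a t)) -
        ∫ u in (w * pJ v w a b m)..(mE v (a 1)), A2 u := by
  have hp : (1 : ℝ) ≤ p := by exact_mod_cast S.p1
  have hX1 := X_1 (v := v) (w := w) h
  have hXm := X_m (v := v) (w := w) h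
  have hX0c : mE v (a 1) ≤ pX v w a b p := by
    rw [← hX1]; exact H.lo.sm.monotoneOn ⟨le_rfl, hp⟩ ⟨hp, le_rfl⟩ hp
  have c1 : Continuous (fun u => g (T1 u)) := hg.comp H.lo.c
  have c2 : Continuous (fun u => g (T2 u)) := hg.comp H.up.c
  have i1 : ∀ s t, IntervalIntegrable (fun u => g (T1 u)) volume s t := fun s t =>
    c1.intervalIntegrable s t
  have i2 : ∀ s t, IntervalIntegrable (fun u => g (T2 u)) volume s t := fun s t =>
    c2.intervalIntegrable s t
  have hl' : ∫ u in (w * pJ v w a b m)..(mE v (a 1)), Sl u =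
      (∫ u in (w * pJ v w a b m)..(mE v (a 1)), g (T2 u)) -
        ∫ u in (w * pJ v w a b m)..(mE v (a 1)), A2 u := by
    rw [← intervalIntegral.integral_sub (i2 _ _) (hA.intervalIntegrable_of_Icc hX.le)]
    refine intervalIntegral.integral_congr fun u hu => ?_
    rw [uIcc_of_le hX.le] at hu
    exact hl u hu
  have hr' : ∫ u in (mE v (a 1))..(pX v w a b p), Sr u =
      (∫ u in (mE v (a 1))..(pX v w a b p), g (T2 u)) -
        ∫ u in (mE v (a 1))..(pX v w a b p), g (T1 u) := by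
    rw [← intervalIntegral.integral_sub (i2 _ _) (i1 _ _)]
    refine intervalIntegral.integral_congr fun u hu => ?_
    rw [uIcc_of_le hX0c] at hu
    exact hr u hu
  rw [hl', hr', H.conv S hg, hX1, hXm,
    ← intervalIntegral.integral_add_adjacent_intervals (i2 (w * pJ v w a b m) (mE v (a 1)))
      (i2 (mE v (a 1)) (pX v w a b p))]
  ring

lemma sl_e {c0 X lo hi : ℝ} (h1 : 0 < ef c0 v w X hi) (h2 : 0 < ef c0 v w X lo) :
    w * sl c0 v w (ef c0 v w) X lo hi = 2 * (ef c0 v w X hi)⁻¹ - 2 * (ef c0 v w X lo)⁻¹ := by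
  have h3 : w * (hi - lo) = ef c0 v w X lo - ef c0 v w X hi := by unfold ef; ring
  unfold sl
  set eh := ef c0 v w X hi
  set el := ef c0 v w X lo
  have : w * ((hi - lo) * (eh * el + el * eh) / (eh ^ 2 * el ^ 2)) =
      (w * (hi - lo)) * ((eh * el + el * eh) / (eh ^ 2 * el ^ 2)) := by ring
  rw [this, h3]
  field_simp
  ring

lemma sl_F {c0 X0 X lo hi : ℝ} (h1 : 0 < ef c0 v w X hi) (h2 : 0 < ef c0 v w X lo) :
    w * sl c0 v w (fF X0) X lo hi =
      (X - X0) * (ef c0 v w X hi)⁻¹ ^ 2 - (X - X0) * (ef c0 v w X lo)⁻¹ ^ 2 := by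
  have h3 : w * (hi - lo) = ef c0 v w X lo - ef c0 v w X hi := by unfold ef; ring
  unfold sl fF
  set eh := ef c0 v w X hi
  set el := ef c0 v w X lo
  have : w * ((hi - lo) * ((X - X0) * el + (X - X0) * eh) / (eh ^ 2 * el ^ 2)) =
      (w * (hi - lo)) * (((X - X0) * el + (X - X0) * eh) / (eh ^ 2 * el ^ 2)) := by ring
  rw [this, h3]
  field_simp
  ring

lemma sl_G {c0 z2 X lo hi : ℝ} (h1 : 0 < ef c0 v w X hi) (h2 : 0 < ef c0 v w X lo) :
    w ^ 2 * sl c0 v w (fG z2) X lo hi =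
      (w * (hi - z2) * (ef c0 v w X hi)⁻¹ ^ 2 - (ef c0 v w X hi)⁻¹) -
      (w * (lo - z2) * (ef c0 v w X lo)⁻¹ ^ 2 - (ef c0 v w X lo)⁻¹) := by
  have h3 : w * (hi - lo) = ef c0 v w X lo - ef c0 v w X hi := by unfold ef; ring
  have h4 : w * (hi - z2) = ef c0 v w X z2 - ef c0 v w X hi := by unfold ef; ring
  have h5 : w * (lo - z2) = ef c0 v w X z2 - ef c0 v w X lo := by unfold ef; ring
  unfold sl fG
  set eh := ef c0 v w X hi
  set el := ef c0 v w X lo
  set ez := ef c0 v w X z2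
  have : w ^ 2 * ((hi - lo) * ((hi - z2) * el + (lo - z2) * eh) / (eh ^ 2 * el ^ 2)) =
      (w * (hi - lo)) * (((w * (hi - z2)) * el + (w * (lo - z2)) * eh) / (eh ^ 2 * el ^ 2)) := by
    ring
  rw [this, h3, h4, h5]
  field_simp
  ring

/-- the hat chain together with the values of all functionals -/
theorem hat_all (hw : w ≠ 0) (h : Std m 0 a b) (S : Spl m a b p q) (H : Hc v w a b m p q T1 T2)
    (hX : w * pJ v w a b m < mE v (a 1)) {z2 : ℝ}
    (hz : z2 * mE v (a 1) = pJ v w a b m) :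
    Hat (1 + v * w * pJ v w a b m) v w (w * pJ v w a b m) (mE v (a 1)) (pX v w a b p) z2
      (fun u => pY v w a b m (T2 u)) (fun u => pY v w a b m (T1 u)) ∧
    II (1 + v * w * pJ v w a b m) v w (w * pJ v w a b m) (mE v (a 1)) (pX v w a b p) z2
      (fun u => pY v w a b m (T2 u)) (fun u => pY v w a b m (T1 u))
      (ef (1 + v * w * pJ v w a b m) v w) = 0 ∧
    II (1 + v * w * pJ v w a b m) v w (w * pJ v w a b m) (mE v (a 1)) (pX v w a b p) z2
      (fun u => pY v w a b m (T2 u)) (fun u => pY v w a b m (T1 u)) (fF (mE v (a 1))) =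
      pP v w a b m - mE v (a 1) * pd v w a b m ∧
    II (1 + v * w * pJ v w a b m) v w (w * pJ v w a b m) (mE v (a 1)) (pX v w a b p) z2
      (fun u => pY v w a b m (T2 u)) (fun u => pY v w a b m (T1 u)) (fG z2) =
      pN v w a b m 0 - z2 * pd v w a b m ∧
    IF (1 + v * w * pJ v w a b m) v w (w * pJ v w a b m) (mE v (a 1)) (pX v w a b p) z2
      (fun u => pY v w a b m (T2 u)) (fun u => pY v w a b m (T1 u)) (fG z2) =
      pM v w a b m 0 - mE v (a 1) * pN v w a b m 0 - z2 * pP v w a b m +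
        mE v (a 1) * z2 * pd v w a b m := by
  have hJ : 0 < pJ v w a b m := MP_b5407d_pos_h13.pJ_pos (MP_b5407d_pos_h13.CP_of_Std h)
  have hX0 := X0_pos v h
  have ha1 := a1_pos h
  have hk : 0 < 1 - w * z2 := by
    have h1 : (1 - w * z2) * mE v (a 1) = mE v (a 1) - w * pJ v w a b m := by
      linear_combination -w * hz
    by_contra hn
    push Not at hn
    have := mul_nonpos_of_nonpos_of_nonneg hn hX0.le
    linarith
  have HH := hat_of h S H hJ hX hz hk
  set J := pJ v w a b m with hJd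
  set X0 := mE v (a 1) with hX0d
  set c := pX v w a b p with hcd
  set Φ : ℝ → ℝ := fun u => pY v w a b m (T2 u) with hΦd
  set ψ : ℝ → ℝ := fun u => pY v w a b m (T1 u) with hψd
  have hX1 : pX v w a b 1 = X0 := X_1 h
  have hXm : pX v w a b m = w * J := X_m h
  have hXpq : pX v w a b q = c := X_pq S
  have hb0 : b 0 = 0 := h.br
  have hb1 : b 1 = 0 := by simpa using h.br1
  have am := h.am
  have hp : (1 : ℝ) ≤ p := by exact_mod_cast S.p1
  have hqm : (q : ℝ) ≤ m := Nat.cast_le.2 S.qm.le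
  have hX0c : X0 ≤ c := HH.hc
  -- values at `T2 u`, `T1 u`
  have e1 : ∀ u ∈ Icc (w * J) c, pX v w a b (T2 u) = u ∧
      ef (1 + v * w * J) v w u (Φ u) = pe v w a b (T2 u) := by
    intro u hu
    have h1 : pX v w a b (T2 u) = u :=
      H.up.XT u ⟨by rw [hXm]; exact hu.1, by rw [hXpq]; exact hu.2⟩
    refine ⟨h1, ?_⟩
    have h3 := e_rel (v := v) (w := w) (b := b) h.a0 m (T2 u)
    rw [h1] at h3
    exact h3.symm
  have e2 : ∀ u ∈ Icc X0 c, pX v w a b (T1 u) = u ∧
      ef (1 + v * w * J) v w u (ψ u) = pe v w a b (T1 u) := by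
    intro u hu
    have h1 : pX v w a b (T1 u) = u :=
      H.lo.XT u ⟨by rw [hX1]; exact hu.1, hu.2⟩
    refine ⟨h1, ?_⟩
    have h3 := e_rel (v := v) (w := w) (b := b) h.a0 m (T1 u)
    rw [h1] at h3
    exact h3.symm
  have ml : ∀ u ∈ Icc (w * J) X0, u ∈ Icc (w * J) c := fun u hu => ⟨hu.1, hu.2.trans hX0c⟩
  have mr : ∀ u ∈ Icc X0 c, u ∈ Icc (w * J) c := fun u hu => ⟨hX.le.trans hu.1, hu.2⟩
  have hei : Continuous (fun t => (pe v w a b t)⁻¹) := peiAC.cont
  have hXc : Continuous (pX v w a b) := XAC.cont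
  have hYc : Continuous (pY v w a b m) := (YAC m).cont
  have hbc : ContinuousOn (fun u => (ef (1 + v * w * J) v w u z2)⁻¹) (Icc (w * J) X0) :=
    box_cont hz hk hX
  have hpe : ∀ t, (pe v w a b t)⁻¹ * pe v w a b t = 1 := fun t => inv_mul_cancel₀ (pe_pos t).ne'
  -- (0)
  have I0 : II (1 + v * w * J) v w (w * J) X0 c z2 Φ ψ (ef (1 + v * w * J) v w) = 0 := by
    have h1 := conv_gen h S H hX (g := fun t => 2 * (pe v w a b t)⁻¹)
      (A2 := fun u => 2 * (ef (1 + v * w * J) v w u z2)⁻¹)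
      (Sl := fun u => w * sl (1 + v * w * J) v w (ef (1 + v * w * J) v w) u z2 (Φ u))
      (Sr := fun u => w * sl (1 + v * w * J) v w (ef (1 + v * w * J) v w) u (ψ u) (Φ u))
      (by fun_prop) (continuousOn_const.mul hbc)
      (fun u hu => by
        rw [sl_e (HH.eΦ u (ml u hu)) (HH.ez u hu), (e1 u (ml u hu)).2])
      (fun u hu => by
        rw [sl_e (HH.eΦ u (mr u hu)) (HH.eψ u hu), (e1 u (mr u hu)).2, (e2 u hu).2])
    rw [intervalIntegral.integral_const_mul, intervalIntegral.integral_const_mul,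
      intervalIntegral.integral_const_mul, box0 hz hk hX ha1.le] at h1
    have h2 : ∫ t in (1 : ℝ)..m, 2 * (pe v w a b t)⁻¹ * (pe v w a b t * dpl a t) =
        -(2 * a 1) := by
      have h3 := int_x (φ := fun _ => 2) am continuous_const
      have h4 : ∀ t, 2 * (pe v w a b t)⁻¹ * (pe v w a b t * dpl a t) = 2 * dpl a t := fun t => by
        linear_combination (2 * dpl a t) * hpe t
      simp only [h4]
      rw [h3]; simp; ring
    rw [h2] at h1
    have h5 : w * II (1 + v * w * J) v w (w * J) X0 c z2 Φ ψ (ef (1 + v * w * J) v w) = 0 := by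
      unfold II; linarith
    rcases mul_eq_zero.1 h5 with h6 | h6
    · exact absurd h6 hw
    · exact h6
  -- (1)
  have I1 : w * II (1 + v * w * J) v w (w * J) X0 c z2 Φ ψ (fF X0) =
      w * (pP v w a b m - X0 * pd v w a b m) := by
    have h1 := conv_gen h S H hX (g := fun t => (pX v w a b t - X0) * (pe v w a b t)⁻¹ ^ 2)
      (A2 := fun u => (u - X0) * (ef (1 + v * w * J) v w u z2)⁻¹ ^ 2)
      (Sl := fun u => w * sl (1 + v * w * J) v w (fF X0) u z2 (Φ u))
      (Sr := fun u => w * sl (1 + v * w * J) v w (fF X0) u (ψ u) (Φ u))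
      (by fun_prop) ((by fun_prop : ContinuousOn (fun u : ℝ => u - X0) _).mul (hbc.pow 2))
      (fun u hu => by
        rw [sl_F (HH.eΦ u (ml u hu)) (HH.ez u hu), (e1 u (ml u hu)).2, (e1 u (ml u hu)).1])
      (fun u hu => by
        rw [sl_F (HH.eΦ u (mr u hu)) (HH.eψ u hu), (e1 u (mr u hu)).2, (e2 u hu).2,
          (e1 u (mr u hu)).1, (e2 u hu).1])
    rw [intervalIntegral.integral_const_mul, intervalIntegral.integral_const_mul,
      box1 hz hk hX ha1.le] at h1
    have h2 := P_id (v := v) (w := w) (a := a) (b := b) am hb0 hb1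
    rw [hX1] at h2
    have h4 : ∀ t, (pX v w a b t - X0) * (pe v w a b t)⁻¹ ^ 2 * (pe v w a b t * dpl a t) =
        (pX v w a b t - X0) * (pe v w a b t)⁻¹ * dpl a t := fun t => by
      linear_combination ((pX v w a b t - X0) * (pe v w a b t)⁻¹ * dpl a t) * hpe t
    simp only [h4] at h1
    unfold II
    linarith
  -- (2)
  have I2 : w ^ 2 * II (1 + v * w * J) v w (w * J) X0 c z2 Φ ψ (fG z2) =
      w ^ 2 * (pN v w a b m 0 - z2 * pd v w a b m) := by
    have h1 := conv_gen h S H hX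
      (g := fun t => w * (pY v w a b m t - z2) * (pe v w a b t)⁻¹ ^ 2 - (pe v w a b t)⁻¹)
      (A2 := fun u => -(ef (1 + v * w * J) v w u z2)⁻¹)
      (Sl := fun u => w ^ 2 * sl (1 + v * w * J) v w (fG z2) u z2 (Φ u))
      (Sr := fun u => w ^ 2 * sl (1 + v * w * J) v w (fG z2) u (ψ u) (Φ u))
      (by fun_prop) hbc.neg
      (fun u hu => by
        rw [sl_G (HH.eΦ u (ml u hu)) (HH.ez u hu), (e1 u (ml u hu)).2]
        ring)
      (fun u hu => by
        rw [sl_G (HH.eΦ u (mr u hu)) (HH.eψ u hu), (e1 u (mr u hu)).2, (e2 u hu).2])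
    rw [intervalIntegral.integral_const_mul, intervalIntegral.integral_const_mul,
      intervalIntegral.integral_neg, box0 hz hk hX ha1.le] at h1
    have h2 := N_id (v := v) (w := w) (a := a) (b := b) am hb0 hb1 hz
    have h4 : ∀ t, (w * (pY v w a b m t - z2) * (pe v w a b t)⁻¹ ^ 2 - (pe v w a b t)⁻¹) *
        (pe v w a b t * dpl a t) =
        w * ((pY v w a b m t - z2) * (pe v w a b t)⁻¹ * dpl a t) - 1 * dpl a t := fun t => by
      linear_combination (w * (pY v w a b m t - z2) * (pe v w a b t)⁻¹ * dpl a t - dpl a t) * hpe t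
    simp only [h4] at h1
    have h3 := int_x (φ := fun _ => 1) am continuous_const
    have i1 : IntervalIntegrable (fun t => w * ((pY v w a b m t - z2) * (pe v w a b t)⁻¹ *
        dpl a t)) volume 1 m :=
      ((Rg.cmul ((hYc.sub continuous_const).mul hei) (plAC a).rg).int _ _).const_mul w
    have i2 : IntervalIntegrable (fun t => 1 * dpl a t) volume 1 m :=
      (Rg.cmul continuous_const (plAC a).rg).int _ _
    rw [intervalIntegral.integral_sub i1 i2, intervalIntegral.integral_const_mul, h3] at h1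
    simp only [intervalIntegral.integral_const, smul_eq_mul, mul_one, sub_zero] at h1
    have h5 : w ^ 2 * (pN v w a b m 0 - z2 * pd v w a b m) =
      w * (w * (pN v w a b m 0 - z2 * pd v w a b m)) := by ring
    rw [h5, h2]
    unfold II
    linarith
  -- (Z)
  have IZ : w ^ 2 * IF (1 + v * w * J) v w (w * J) X0 c z2 Φ ψ (fG z2) =
      w ^ 2 * (pM v w a b m 0 - X0 * pN v w a b m 0 - z2 * pP v w a b m +
        X0 * z2 * pd v w a b m) := by
    have h1 := conv_gen h S H hX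
      (g := fun t => (pX v w a b t - X0) *
        (w * (pY v w a b m t - z2) * (pe v w a b t)⁻¹ ^ 2 - (pe v w a b t)⁻¹))
      (A2 := fun u => -((u - X0) * (ef (1 + v * w * J) v w u z2)⁻¹))
      (Sl := fun u => w ^ 2 * ((u - X0) * sl (1 + v * w * J) v w (fG z2) u z2 (Φ u)))
      (Sr := fun u => w ^ 2 * ((u - X0) * sl (1 + v * w * J) v w (fG z2) u (ψ u) (Φ u)))
      (by fun_prop) ((by fun_prop : ContinuousOn (fun u : ℝ => u - X0) _).mul hbc).neg
      (fun u hu => by
        have := sl_G (z2 := z2) (HH.eΦ u (ml u hu)) (HH.ez u hu)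
        rw [(e1 u (ml u hu)).2] at this
        rw [(e1 u (ml u hu)).1]
        linear_combination (u - X0) * this)
      (fun u hu => by
        have := sl_G (z2 := z2) (HH.eΦ u (mr u hu)) (HH.eψ u hu)
        rw [(e1 u (mr u hu)).2, (e2 u hu).2] at this
        rw [(e1 u (mr u hu)).1, (e2 u hu).1]
        linear_combination (u - X0) * this)
    rw [intervalIntegral.integral_const_mul, intervalIntegral.integral_const_mul,
      intervalIntegral.integral_neg, box2 hz hk hX ha1.le] at h1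
    have h2 := Z_id (v := v) (w := w) (a := a) (b := b) am hb0 hb1 z2
    rw [hX1] at h2
    have h4 : ∀ t, (pX v w a b t - X0) *
        (w * (pY v w a b m t - z2) * (pe v w a b t)⁻¹ ^ 2 - (pe v w a b t)⁻¹) *
        (pe v w a b t * dpl a t) =
        w * ((pX v w a b t - X0) * (pY v w a b m t - z2) * (pe v w a b t)⁻¹ * dpl a t) -
        (pX v w a b t - X0) * dpl a t := fun t => by
      linear_combination ((pX v w a b t - X0) * (w * (pY v w a b m t - z2) * (pe v w a b t)⁻¹ -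
        1) * dpl a t) * hpe t
    simp only [h4] at h1
    have i1 : IntervalIntegrable (fun t => w * ((pX v w a b t - X0) * (pY v w a b m t - z2) *
        (pe v w a b t)⁻¹ * dpl a t)) volume 1 m :=
      ((Rg.cmul (((hXc.sub continuous_const).mul (hYc.sub continuous_const)).mul hei)
        (plAC a).rg).int _ _).const_mul w
    have i2 : IntervalIntegrable (fun t => (pX v w a b t - X0) * dpl a t) volume 1 m :=
      (Rg.cmul (hXc.sub continuous_const) (plAC a).rg).int _ _
    have i3 : IntervalIntegrable (fun t => pB v w a b m z2 t * dpl a t) volume 1 m :=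
      (Rg.cmul (BAC m z2).cont (plAC a).rg).int _ _
    rw [intervalIntegral.integral_sub i1 i2, intervalIntegral.integral_const_mul] at h1
    -- `F + w B` is a function of `x`
    have h6 : (∫ t in (1 : ℝ)..m, (pX v w a b t - X0) * dpl a t) +
        w * ∫ t in (1 : ℝ)..m, pB v w a b m z2 t * dpl a t =
        (1 - w * z2) * ∫ s in (0 : ℝ)..a 1, (X0 - mE v s) := by
      rw [← intervalIntegral.integral_const_mul, ← intervalIntegral.integral_add i2
        (i3.const_mul w)]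
      have h7 : ∀ t, (pX v w a b t - X0) * dpl a t + w * (pB v w a b m z2 t * dpl a t) =
          (fun s => -((1 - w * z2) * (X0 - mE v s))) (pl a t) * dpl a t := by
        intro t
        simp only [pB]
        rw [X_rel h.a0]
        linear_combination (-w * dpl a t) * hz
      have hc := mE_c v
      have h8 := int_x (φ := fun s => -((1 - w * z2) * (X0 - mE v s))) am (by fun_prop)
      rw [intervalIntegral.integral_neg, intervalIntegral.integral_const_mul] at h8
      rw [intervalIntegral.integral_congr (g := fun t =>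
        (fun s => -((1 - w * z2) * (X0 - mE v s))) (pl a t) * dpl a t) (fun t _ => h7 t), h8]
      ring
    have h5 : w ^ 2 * (pM v w a b m 0 - X0 * pN v w a b m 0 - z2 * pP v w a b m +
        X0 * z2 * pd v w a b m) = w * (w * (pM v w a b m 0 - X0 * pN v w a b m 0 -
        z2 * pP v w a b m + X0 * z2 * pd v w a b m)) := by ring
    rw [h5, h2]
    unfold IF
    linarith
  have hw2 : w ^ 2 ≠ 0 := pow_ne_zero 2 hw
  have J1 := mul_left_cancel₀ hw I1
  have J2 := mul_left_cancel₀ hw2 I2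
  have JZ := mul_left_cancel₀ hw2 IZ
  exact ⟨HH, I0, J1, J2, JZ⟩

/-- **main step** : `Z(P2) ≤ 0` -/
theorem Z_le (hw : w ≠ 0) (h : Std m 0 a b) (hX : w * pJ v w a b m < mE v (a 1)) {z2 : ℝ}
    (hz : z2 * mE v (a 1) = pJ v w a b m)
    (hyp : (pP v w a b m ≤ mE v (a 1) * pd v w a b m ∧ pN v w a b m 0 ≤ z2 * pd v w a b m) ∨
      z2 ≤ mE w (b m)) :
    pM v w a b m 0 - mE v (a 1) * pN v w a b m 0 - z2 * pP v w a b m +
      mE v (a 1) * z2 * pd v w a b m ≤ 0 := by
  obtain ⟨p, q, S⟩ := exists_spl h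
  obtain ⟨T1, T2, H⟩ := exists_Hc v w h S
  obtain ⟨HH, I0, J1, J2, JZ⟩ := hat_all hw h S H hX hz
  have hqm : (q : ℝ) ≤ m := Nat.cast_le.2 S.qm.le
  rw [← JZ]
  refine HH.main I0 ?_
  rcases hyp with hyp | hyp
  · left
    rw [J1, J2]
    exact ⟨by linarith [hyp.1], by linarith [hyp.2]⟩
  · right
    have h1 : T2 (w * pJ v w a b m) = m := by
      rw [← X_m (v := v) (w := w) h]; exact H.up.TX m ⟨hqm, le_rfl⟩
    simp only [h1]
    rw [Y_m h]
    exact hyp

/-- **(a)** : no chain point beyond `P2`, and the upper chain has a point `t2` to the left of `U_B`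
at height `≥ z2`: then `Z(P2) ≤ 0` (the chain may be self-crossing elsewhere) -/
theorem Z_le_a (hw : w ≠ 0) (h : Std m 0 a b) (S : Spl m a b p q)
    (hX : w * pJ v w a b m < mE v (a 1)) {z2 : ℝ} (hz : z2 * mE v (a 1) = pJ v w a b m)
    {t2 : ℝ} (ht2 : t2 ∈ Icc (q : ℝ) m) (hY2 : z2 ≤ pY v w a b m t2)
    (hX2 : pX v w a b t2 ≤ mE v (a 1))
    (hno : ∀ t ∈ Icc (1 : ℝ) m, mE v (a 1) ≤ pX v w a b t → pY v w a b m t ≤ z2) :
    pM v w a b m 0 - mE v (a 1) * pN v w a b m 0 - z2 * pP v w a b m +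
      mE v (a 1) * z2 * pd v w a b m ≤ 0 := by
  obtain ⟨T1, T2, H⟩ := exists_Hc v w h S
  obtain ⟨HH, I0, J1, J2, JZ⟩ := hat_all hw h S H hX hz
  have hp : (1 : ℝ) ≤ p := by exact_mod_cast S.p1
  have hpq : (p : ℝ) ≤ q := Nat.cast_le.2 S.pq
  have hqm : (q : ℝ) ≤ m := Nat.cast_le.2 S.qm.le
  have hXm : pX v w a b m = w * pJ v w a b m := X_m h
  have hXpq : pX v w a b q = pX v w a b p := X_pq S
  rw [← JZ]
  set c := pX v w a b p with hcd
  set X0 := mE v (a 1) with hX0d
  set Φ : ℝ → ℝ := fun u => pY v w a b m (T2 u) with hΦd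
  set ψ : ℝ → ℝ := fun u => pY v w a b m (T1 u) with hψd
  have mX0' : X0 ∈ Icc X0 c := ⟨le_rfl, HH.hc⟩
  have mc' : c ∈ Icc X0 c := ⟨HH.hc, le_rfl⟩
  have mt : pX v w a b t2 ∈ Icc (w * pJ v w a b m) c := by
    constructor
    · rw [← hXm]; exact H.up.sm.antitoneOn ht2 ⟨hqm, le_rfl⟩ ht2.2
    · rw [← hXpq]; exact H.up.sm.antitoneOn ⟨le_rfl, hqm⟩ ht2 ht2.1
  have mc : c ∈ Icc (w * pJ v w a b m) c := ⟨hX.le.trans HH.hc, le_rfl⟩
  have h0 : ψ X0 ≤ Φ X0 := by
    have h1 := conc3 HH.Φv mt mc hX2 HH.hc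
    have h2 : Φ (pX v w a b t2) = pY v w a b m t2 := by
      simp only [hΦd]; rw [H.up.TX t2 ht2]
    rw [h2] at h1
    have h3 := HH.top
    have h4 := HH.ψm mX0' mc' HH.hc
    have h5 := HH.hz
    have h6 : pX v w a b t2 < c ∨ pX v w a b t2 = c := lt_or_eq_of_le mt.2
    rcases h6 with h6 | h6
    · by_contra hn
      push Not at hn
      have h7 := mul_nonneg (sub_nonneg.2 HH.hc) (by linarith : 0 ≤ pY v w a b m t2 - ψ X0)
      have h8 := mul_nonneg (sub_nonneg.2 hX2) (by linarith : 0 ≤ Φ c - ψ X0)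
      have h9 := mul_pos (sub_pos.2 h6) (sub_pos.2 hn)
      linarith
    · have h7 : X0 = c := le_antisymm HH.hc (by rw [← h6]; exact hX2)
      rw [h7]; rw [h7] at h4; linarith
  have hgv : ConcaveOn ℝ (Icc X0 c) (fun X => Φ X - ψ X) :=
    (HH.Φv.subset (Icc_subset_Icc_left HH.hN.le) (convex_Icc X0 c)).sub HH.ψv
  have hA : ∀ X ∈ Icc X0 c, ψ X ≤ Φ X := by
    intro X hX'
    have h1 := conc3 hgv mX0' mc' hX'.1 hX'.2
    rcases eq_or_lt_of_le HH.hc with h | h
    · have : X = X0 := le_antisymm (by rw [h]; exact hX'.2) hX'.1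
      rw [this]; exact h0
    · by_contra hn
      push Not at hn
      have h2 := HH.top
      have h5 := mul_nonneg (sub_nonneg.2 hX'.2) (sub_nonneg.2 h0)
      have h6 := mul_nonneg (sub_nonneg.2 hX'.1) (sub_nonneg.2 h2)
      have h7 := mul_pos (sub_pos.2 h) (sub_pos.2 hn)
      linarith
  refine HH.caseA hA ?_
  intro X hX'
  have h1 : T2 X ∈ Icc (q : ℝ) m := H.up.m X
  have h2 : pX v w a b (T2 X) = X :=
    H.up.XT X ⟨by rw [hXm]; exact hX.le.trans hX'.1, by rw [hXpq]; exact hX'.2⟩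
  exact hno (T2 X) ⟨by linarith [h1.1], h1.2⟩ (by rw [h2]; exact hX'.1)

/-- `h ≥ 0` from `Z(P2) ≤ 0` and comparability -/
lemma of_Z {z2 : ℝ} {P N M D X0 : ℝ} (hD : 0 < D)
    (hZ : M - X0 * N - z2 * P + X0 * z2 * D ≤ 0) (hc : 0 ≤ (P - X0 * D) * (N - z2 * D)) :
    D * M ≤ P * N := by
  have := mul_nonpos_of_nonneg_of_nonpos hD.le hZ
  nlinarith

/-- **W3** -/
theorem W3 (hw : w ≠ 0) (h : Std m 0 a b)
    (hρ : pJ v w a b m ≤ mE v (a 1) * mE w (b m))
    (h1 : mE v (a 1) * pd v w a b m ≤ pP v w a b m)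
    (h2 : pJ v w a b m * pd v w a b m ≤ mE v (a 1) * pN v w a b m 0) :
    pd v w a b m * pM v w a b m 0 ≤ pP v w a b m * pN v w a b m 0 := by
  have hJ : 0 < pJ v w a b m := MP_b5407d_pos_h13.pJ_pos (MP_b5407d_pos_h13.CP_of_Std h)
  have hD : 0 < pd v w a b m := MP_b5407d_pos_h13.pd_pos (MP_b5407d_pos_h13.CP_of_Std h)
  have hX0 := X0_pos v h
  have hz : pJ v w a b m / mE v (a 1) * mE v (a 1) = pJ v w a b m := by field_simp
  have hX : w * pJ v w a b m < mE v (a 1) := by
    rcases le_or_gt w 0 with hw' | hw'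
    · have := mul_nonpos_of_nonpos_of_nonneg hw' hJ.le
      linarith
    · have h3 := mE_r w (b m)
      have h4 := Real.exp_pos (-(w * b m))
      have h5 := mul_le_mul_of_nonneg_left hρ hw'.le
      have h6 : mE v (a 1) * (w * mE w (b m)) < mE v (a 1) * 1 :=
        mul_lt_mul_of_pos_left (by linarith) hX0
      linarith
  have hZ := Z_le hw h hX hz (Or.inr (by rw [div_le_iff₀ hX0]; linarith))
  refine of_Z hD hZ (mul_nonneg (by linarith) ?_)
  have : 0 ≤ (pN v w a b m 0 - pJ v w a b m / mE v (a 1) * pd v w a b m) * mE v (a 1) := by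
    have e : (pN v w a b m 0 - pJ v w a b m / mE v (a 1) * pd v w a b m) * mE v (a 1) =
      mE v (a 1) * pN v w a b m 0 - pJ v w a b m * pd v w a b m := by field_simp
    rw [e]; linarith
  by_contra hn
  push Not at hn
  have := mul_neg_of_neg_of_pos hn hX0
  linarith

/-- **W1**, except for the fact `C1 > w J` -/
theorem W1' (hw : w ≠ 0) (h : Std m 0 a b) (hX : w * pJ v w a b m < mE v (a 1))
    (h1 : pP v w a b m ≤ mE v (a 1) * pd v w a b m)
    (h2 : mE v (a 1) * pN v w a b m 0 ≤ pJ v w a b m * pd v w a b m) :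
    pd v w a b m * pM v w a b m 0 ≤ pP v w a b m * pN v w a b m 0 := by
  have hD : 0 < pd v w a b m := MP_b5407d_pos_h13.pd_pos (MP_b5407d_pos_h13.CP_of_Std h)
  have hX0 := X0_pos v h
  have hz : pJ v w a b m / mE v (a 1) * mE v (a 1) = pJ v w a b m := by field_simp
  have h3 : pN v w a b m 0 ≤ pJ v w a b m / mE v (a 1) * pd v w a b m := by
    rw [div_mul_eq_mul_div, le_div_iff₀ hX0]; linarith
  have hZ := Z_le hw h hX hz (Or.inl ⟨h1, h3⟩)
  refine of_Z hD hZ (mul_nonneg_of_nonpos_of_nonpos (by linarith) (by linarith))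

end

end Pool.Agent.Work.MP_b5407d_pos_h47
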